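import Pool.Agent.Q278.GC.Stm2
import Pool.Agent.Q278.GC.A

/-!
# Job GC-K1 of helper278's project: decay of the covariance of wavelets
-/

set_option autoImplicit false

open MeasureTheory Filter Topology Complex
open scoped ComplexConjugate RealInnerProductSpace ContDiff FourierTransform
open Pool.Agent.Q278.MC Pool.Agent.Q278.GC

namespace Pool.Agent.Q128.GC

/-- the reduced amplitude -/
noncomputable def amp (G : ℝ → ℂ) (ρ u : ℝ) : ℂ := G u * conj (G (ρ * u))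

/-- the integrand -/
noncomputable def Fa (G : ℝ → ℂ) (ρ u : ℝ) : ℂ := ((|u| : ℝ) : ℂ) * amp G ρ u

/-- the reduced covariance -/
noncomputable def Psi (G : ℝ → ℂ) (ρ z : ℝ) : ℝ :=
  ∫ u : ℝ, |u| * (cexp (-(2 * Real.pi * z * u : ℝ) * I) * amp G ρ u).re

/-- hypotheses on the transform -/
structure Good (G G' : ℝ → ℂ) (K : ℝ) : Prop where
  K0 : 0 < K
  der : ∀ u, HasDerivAt G (G' u) u
  b : ∀ u, ‖G u‖ ≤ K * (1 + u ^ 2)⁻¹ ^ 3
  b' : ∀ u, ‖G' u‖ ≤ K * (1 + u ^ 2)⁻¹ ^ 3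

variable {G G' : ℝ → ℂ} {K : ℝ}

lemma inv3_le (u : ℝ) : (1 + u ^ 2)⁻¹ ^ 3 ≤ 1 := by
  apply pow_le_one₀ (by positivity)
  exact inv_le_one_of_one_le₀ (by nlinarith [sq_nonneg u])

lemma Good.cont (h : Good G G' K) : Continuous G :=
  continuous_iff_continuousAt.2 fun u => (h.der u).continuousAt

lemma Good.le_K (h : Good G G' K) (u : ℝ) : ‖G u‖ ≤ K :=
  (h.b u).trans (by nlinarith [inv3_le u, h.K0])

lemma Good.le_K' (h : Good G G' K) (u : ℝ) : ‖G' u‖ ≤ K :=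
  (h.b' u).trans (by nlinarith [inv3_le u, h.K0])

lemma amp_cont (h : Good G G' K) (ρ : ℝ) : Continuous (amp G ρ) := by
  unfold amp
  have h1 := h.cont
  exact h1.mul (Complex.continuous_conj.comp (h1.comp (continuous_const.mul continuous_id)))

lemma Fa_cont (h : Good G G' K) (ρ : ℝ) : Continuous (Fa G ρ) := by
  unfold Fa
  exact (Complex.continuous_ofReal.comp continuous_abs).mul (amp_cont h ρ)

lemma amp_le (h : Good G G' K) (ρ u : ℝ) : ‖amp G ρ u‖ ≤ K ^ 2 * (1 + u ^ 2)⁻¹ ^ 3 := by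
  unfold amp
  rw [norm_mul, RCLike.norm_conj]
  have h1 := mul_le_mul (h.b u) (h.le_K (ρ * u)) (norm_nonneg _)
    ((norm_nonneg _).trans (h.b u))
  refine h1.trans (le_of_eq ?_)
  ring

lemma amp_der (h : Good G G' K) {ρ : ℝ} (hρ0 : 0 ≤ ρ) (hρ1 : ρ ≤ 1) (u : ℝ) :
    ∃ D : ℂ, HasDerivAt (amp G ρ) D u ∧ ‖D‖ ≤ 2 * K ^ 2 * (1 + u ^ 2)⁻¹ ^ 3 := by
  have h1 := h.der u
  have h2 : HasDerivAt (fun u : ℝ => G (ρ * u)) (ρ • G' (ρ * u)) u := by
    have h3 : HasDerivAt (fun u : ℝ => ρ * u) ρ u := by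
      simpa using (hasDerivAt_id u).const_mul ρ
    exact HasDerivAt.scomp (𝕜 := ℝ) u (h.der (ρ * u)) h3
  have h4 : HasDerivAt (fun u : ℝ => conj (G (ρ * u))) (conj (ρ • G' (ρ * u))) u := h2.star
  refine ⟨_, h1.mul h4, ?_⟩
  refine (norm_add_le _ _).trans ?_
  rw [norm_mul, norm_mul, RCLike.norm_conj, RCLike.norm_conj, norm_smul, Real.norm_of_nonneg hρ0]
  have e1 : ‖G' u‖ * ‖G (ρ * u)‖ ≤ (K * (1 + u ^ 2)⁻¹ ^ 3) * K :=
    mul_le_mul (h.b' u) (h.le_K _) (norm_nonneg _) ((norm_nonneg _).trans (h.b' u))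
  have e2 : ρ * ‖G' (ρ * u)‖ ≤ K := by
    have := mul_le_mul hρ1 (h.le_K' (ρ * u)) (norm_nonneg _) zero_le_one
    linarith
  have e3 : ‖G u‖ * (ρ * ‖G' (ρ * u)‖) ≤ (K * (1 + u ^ 2)⁻¹ ^ 3) * K :=
    mul_le_mul (h.b u) e2 (by positivity) ((norm_nonneg _).trans (h.b u))
  linarith

lemma Fa_le (h : Good G G' K) (ρ u : ℝ) : ‖Fa G ρ u‖ ≤ K ^ 2 * (1 + u ^ 2)⁻¹ := by
  unfold Fa
  rw [norm_mul, Complex.norm_real, Real.norm_of_nonneg (abs_nonneg u)]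
  have hone : (1 + u ^ 2)⁻¹ ≤ 1 := inv_le_one_of_one_le₀ (by nlinarith [sq_nonneg u])
  have hpos : 0 ≤ (1 + u ^ 2)⁻¹ := by positivity
  have hxi : |u| * (1 + u ^ 2)⁻¹ ≤ 1 := by
    rw [← div_eq_mul_inv, div_le_one (by positivity)]
    have := sq_abs u
    nlinarith [sq_nonneg (|u| - 1), abs_nonneg u]
  calc |u| * ‖amp G ρ u‖ ≤ |u| * (K ^ 2 * (1 + u ^ 2)⁻¹ ^ 3) :=
        mul_le_mul_of_nonneg_left (amp_le h ρ u) (abs_nonneg _)
    _ = K ^ 2 * (1 + u ^ 2)⁻¹ * ((|u| * (1 + u ^ 2)⁻¹) * (1 + u ^ 2)⁻¹) := by ring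
    _ ≤ K ^ 2 * (1 + u ^ 2)⁻¹ * (1 * 1) := by
        gcongr
    _ = _ := by ring

lemma Fa_le' (h : Good G G' K) (ρ u : ℝ) : |u| * ‖Fa G ρ u‖ ≤ K ^ 2 * (1 + u ^ 2)⁻¹ := by
  unfold Fa
  rw [norm_mul, Complex.norm_real, Real.norm_of_nonneg (abs_nonneg u)]
  have hone : (1 + u ^ 2)⁻¹ ≤ 1 := inv_le_one_of_one_le₀ (by nlinarith [sq_nonneg u])
  have hpos : 0 ≤ (1 + u ^ 2)⁻¹ := by positivity
  have hxi : u ^ 2 * (1 + u ^ 2)⁻¹ ≤ 1 := by
    rw [← div_eq_mul_inv, div_le_one (by positivity)]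
    linarith
  have h2 : |u| * (|u| * ‖amp G ρ u‖) = u ^ 2 * ‖amp G ρ u‖ := by
    rw [← mul_assoc, ← sq, sq_abs]
  rw [h2]
  calc u ^ 2 * ‖amp G ρ u‖ ≤ u ^ 2 * (K ^ 2 * (1 + u ^ 2)⁻¹ ^ 3) :=
        mul_le_mul_of_nonneg_left (amp_le h ρ u) (sq_nonneg _)
    _ = K ^ 2 * (1 + u ^ 2)⁻¹ * ((u ^ 2 * (1 + u ^ 2)⁻¹) * (1 + u ^ 2)⁻¹) := by ring
    _ ≤ K ^ 2 * (1 + u ^ 2)⁻¹ * (1 * 1) := by
        gcongr
    _ = _ := by ring

lemma Fa_int (h : Good G G' K) (ρ : ℝ) : Integrable (Fa G ρ) :=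
  (integrable_inv_one_add_sq.const_mul (K ^ 2)).mono' (Fa_cont h ρ).aestronglyMeasurable
    (Eventually.of_forall fun u => Fa_le h ρ u)

lemma Psi_eq (h : Good G G' K) (ρ z : ℝ) : Psi G ρ z = (𝓕 (Fa G ρ) z).re := by
  rw [Real.fourier_real_eq_integral_exp_smul]
  unfold Psi
  have h1 : Integrable fun v : ℝ => cexp (↑(-2 * Real.pi * v * z) * I) • Fa G ρ v := by
    refine (Fa_int h ρ).norm.mono' ?_ (Eventually.of_forall fun v => ?_)
    · refine Continuous.aestronglyMeasurable ?_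
      exact ((Complex.continuous_exp.comp (by fun_prop))).smul (Fa_cont h ρ)
    · rw [norm_smul, Complex.norm_exp_ofReal_mul_I, one_mul]
  have h2 := integral_re h1
  simp only [RCLike.re_to_complex] at h2
  rw [← h2]
  refine integral_congr_ae (Eventually.of_forall fun u => ?_)
  show |u| * (cexp (-(2 * Real.pi * z * u : ℝ) * I) * amp G ρ u).re =
    (cexp (↑(-2 * Real.pi * u * z) * I) • Fa G ρ u).re
  unfold Fa
  rw [smul_eq_mul]
  have e1 : cexp (↑(-2 * Real.pi * u * z) * I) * (((|u| : ℝ) : ℂ) * amp G ρ u) =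
      ((|u| : ℝ) : ℂ) * (cexp (-(2 * Real.pi * z * u : ℝ) * I) * amp G ρ u) := by
    have : ((-2 * Real.pi * u * z : ℝ) : ℂ) * I = (-(2 * Real.pi * z * u : ℝ) : ℂ) * I := by
      push_cast; ring
    rw [this]
    ring
  rw [e1, Complex.re_ofReal_mul]

/-- the constant `∫ 1/(1+u²) = π` -/
lemma norm_int_le (F : ℝ → ℂ) (B : ℝ) (hB : ∀ u, ‖F u‖ ≤ B * (1 + u ^ 2)⁻¹) :
    ∫ u, ‖F u‖ ≤ B * Real.pi := by
  by_cases hF : Integrable fun u => ‖F u‖
  · calc ∫ u, ‖F u‖ ≤ ∫ u : ℝ, B * (1 + u ^ 2)⁻¹ :=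
          integral_mono hF (integrable_inv_one_add_sq.const_mul B) hB
      _ = B * Real.pi := by rw [integral_const_mul, integral_univ_inv_one_add_sq]
  · rw [integral_undef hF]
    have h0 := (norm_nonneg _).trans (hB 0)
    have : 0 ≤ B := by simpa using h0
    positivity

/-- the Fourier transform of the integrand: Lipschitz -/
lemma four_lip (h : Good G G' K) (ρ z z' : ℝ) :
    ‖𝓕 (Fa G ρ) z - 𝓕 (Fa G ρ) z'‖ ≤ 2 * Real.pi * |z - z'| * (K ^ 2 * Real.pi) := by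
  rw [Real.fourier_real_eq_integral_exp_smul, Real.fourier_real_eq_integral_exp_smul]
  have hint : ∀ z : ℝ, Integrable fun v : ℝ => cexp (↑(-2 * Real.pi * v * z) * I) • Fa G ρ v := by
    intro z
    refine (Fa_int h ρ).norm.mono' ?_ (Eventually.of_forall fun v => ?_)
    · refine Continuous.aestronglyMeasurable ?_
      exact ((Complex.continuous_exp.comp (by fun_prop))).smul (Fa_cont h ρ)
    · rw [norm_smul, Complex.norm_exp_ofReal_mul_I, one_mul]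
  rw [← integral_sub (hint z) (hint z')]
  have hpt : ∀ v : ℝ, ‖cexp (↑(-2 * Real.pi * v * z) * I) • Fa G ρ v -
      cexp (↑(-2 * Real.pi * v * z') * I) • Fa G ρ v‖ ≤
      2 * Real.pi * |z - z'| * (K ^ 2 * (1 + v ^ 2)⁻¹) := by
    intro v
    rw [← sub_smul, norm_smul]
    have e1 : cexp (↑(-2 * Real.pi * v * z) * I) - cexp (↑(-2 * Real.pi * v * z') * I) =
        cexp (↑(-2 * Real.pi * v * z') * I) *
          (cexp (I * ((-2 * Real.pi * v * (z - z') : ℝ) : ℂ)) - 1) := by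
      rw [mul_sub, ← Complex.exp_add, mul_one]
      congr 2
      push_cast
      ring
    rw [e1, norm_mul, Complex.norm_exp_ofReal_mul_I, one_mul]
    have e2 := Real.norm_exp_I_mul_ofReal_sub_one_le (x := -2 * Real.pi * v * (z - z'))
    have e3 : ‖(-2 * Real.pi * v * (z - z') : ℝ)‖ = 2 * Real.pi * |z - z'| * |v| := by
      rw [Real.norm_eq_abs, abs_mul, abs_mul, abs_mul, abs_of_pos Real.pi_pos]
      norm_num
      ring
    rw [e3] at e2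
    calc ‖cexp (I * ((-2 * Real.pi * v * (z - z') : ℝ) : ℂ)) - 1‖ * ‖Fa G ρ v‖
        ≤ (2 * Real.pi * |z - z'| * |v|) * ‖Fa G ρ v‖ :=
          mul_le_mul_of_nonneg_right e2 (norm_nonneg _)
      _ = 2 * Real.pi * |z - z'| * (|v| * ‖Fa G ρ v‖) := by ring
      _ ≤ _ := mul_le_mul_of_nonneg_left (Fa_le' h ρ v) (by positivity)
  refine (norm_integral_le_integral_norm _).trans ?_
  refine (norm_int_le _ (2 * Real.pi * |z - z'| * K ^ 2) fun v => ?_).trans (le_of_eq (by ring))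
  refine (hpt v).trans (le_of_eq (by ring))

/-- comparison of the weights at near points -/
lemma weight_near {u w : ℝ} (h : |u - w| ≤ 1) : (1 + w ^ 2)⁻¹ ≤ 3 * (1 + u ^ 2)⁻¹ := by
  rw [← div_eq_mul_inv, inv_eq_one_div, div_le_div_iff₀ (by positivity) (by positivity)]
  have h1 := abs_le.1 h
  nlinarith [sq_nonneg (u - 2 * w), sq_nonneg (u - w), mul_self_nonneg (u - w)]

/-- the integrand is Lipschitz with an integrable constant -/
lemma Fa_lip (h : Good G G' K) {ρ : ℝ} (hρ0 : 0 ≤ ρ) (hρ1 : ρ ≤ 1) {u v : ℝ} (huv : |u - v| ≤ 1) :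
    ‖Fa G ρ u - Fa G ρ v‖ ≤ |u - v| * (200 * K ^ 2 * (1 + u ^ 2)⁻¹) := by
  have hK := h.K0
  have hW : 0 < (1 + u ^ 2)⁻¹ := by positivity
  have hW1 : (1 + u ^ 2)⁻¹ ≤ 1 := inv_le_one_of_one_le₀ (by nlinarith [sq_nonneg u])
  -- the amplitude
  have hA : ‖amp G ρ u - amp G ρ v‖ ≤ (2 * K ^ 2 * (3 * (1 + u ^ 2)⁻¹) ^ 3) * ‖u - v‖ := by
    have hc : Convex ℝ (Set.uIcc v u) := convex_uIcc v u
    choose D hD hDb using fun u => amp_der h hρ0 hρ1 u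
    refine hc.norm_image_sub_le_of_norm_hasDerivWithin_le (f' := D)
      (fun w _ => (hD w).hasDerivWithinAt) (fun w hw => ?_) Set.left_mem_uIcc Set.right_mem_uIcc
    refine (hDb w).trans ?_
    have hw1 : |u - w| ≤ 1 := by
      have := Set.abs_sub_left_of_mem_uIcc (a := u) (b := v) (c := w)
        (by rw [Set.uIcc_comm]; exact hw)
      rw [abs_sub_comm] at this
      rw [abs_sub_comm u v] at huv
      linarith
    have h1 := weight_near hw1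
    have h2 : (1 + w ^ 2)⁻¹ ^ 3 ≤ (3 * (1 + u ^ 2)⁻¹) ^ 3 :=
      pow_le_pow_left₀ (by positivity) h1 3
    exact mul_le_mul_of_nonneg_left h2 (by positivity)
  rw [Real.norm_eq_abs] at hA
  have e : Fa G ρ u - Fa G ρ v = ((|u| - |v| : ℝ) : ℂ) * amp G ρ u +
      ((|v| : ℝ) : ℂ) * (amp G ρ u - amp G ρ v) := by
    unfold Fa
    push_cast
    ring
  rw [e]
  refine (norm_add_le _ _).trans ?_
  rw [norm_mul, norm_mul, Complex.norm_real, Complex.norm_real, Real.norm_eq_abs, Real.norm_eq_abs,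
    abs_abs]
  have h1 : |(|u| - |v|)| ≤ |u - v| := abs_abs_sub_abs_le_abs_sub u v
  have h2 : |(|u| - |v|)| * ‖amp G ρ u‖ ≤ |u - v| * (K ^ 2 * (1 + u ^ 2)⁻¹) := by
    refine mul_le_mul h1 ((amp_le h ρ u).trans ?_) (norm_nonneg _) (abs_nonneg _)
    apply mul_le_mul_of_nonneg_left _ (by positivity)
    calc (1 + u ^ 2)⁻¹ ^ 3 = (1 + u ^ 2)⁻¹ * ((1 + u ^ 2)⁻¹ * (1 + u ^ 2)⁻¹) := by ring
      _ ≤ (1 + u ^ 2)⁻¹ * (1 * 1) := by gcongr
      _ = _ := by ring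
  have h3 : |v| * (1 + u ^ 2)⁻¹ ≤ 2 := by
    rw [← div_eq_mul_inv, div_le_iff₀ (by positivity)]
    have h4 : |v| ≤ |u| + 1 := by
      have : |v| - |u| ≤ |v - u| := abs_sub_abs_le_abs_sub v u
      rw [abs_sub_comm] at this
      linarith
    have h5 := sq_abs u
    nlinarith [sq_nonneg (|u| - 1), abs_nonneg u]
  have h4 : |v| * ‖amp G ρ u - amp G ρ v‖ ≤ |u - v| * (108 * K ^ 2 * (1 + u ^ 2)⁻¹) := by
    calc |v| * ‖amp G ρ u - amp G ρ v‖ ≤
        |v| * ((2 * K ^ 2 * (3 * (1 + u ^ 2)⁻¹) ^ 3) * |u - v|) :=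
          mul_le_mul_of_nonneg_left hA (abs_nonneg _)
      _ = |u - v| * (54 * K ^ 2 * ((|v| * (1 + u ^ 2)⁻¹) * (1 + u ^ 2)⁻¹ * (1 + u ^ 2)⁻¹)) := by ring
      _ ≤ |u - v| * (54 * K ^ 2 * (2 * (1 + u ^ 2)⁻¹ * 1)) := by
          gcongr
      _ = _ := by ring
  have h5 : 0 ≤ |u - v| * (K ^ 2 * (1 + u ^ 2)⁻¹) := by positivity
  nlinarith

/-- decay of the Fourier transform of the integrand -/
lemma four_decay (h : Good G G' K) {ρ : ℝ} (hρ0 : 0 ≤ ρ) (hρ1 : ρ ≤ 1) {z : ℝ} (hz : 1 ≤ |z|) :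
    |z| * ‖𝓕 (Fa G ρ) z‖ ≤ 50 * K ^ 2 * Real.pi := by
  have hz0 : z ≠ 0 := by
    intro h0
    rw [h0, abs_zero] at hz
    linarith
  have h1 := fourierIntegral_eq_half_sub_half_period_translate (V := ℝ) (w := z) hz0 (Fa_int h ρ)
  have h2 : 𝓕 (Fa G ρ) z = ∫ v : ℝ, Real.fourierChar (-(inner ℝ v z)) • Fa G ρ v := by
    rw [Real.fourier_eq]
  rw [h2, h1, norm_smul]
  have hh : (1 / (2 * ‖z‖ ^ 2) : ℝ) • z = 1 / (2 * z) := by
    rw [Real.norm_eq_abs, sq_abs, smul_eq_mul]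
    field_simp
  have h3 : ‖∫ v : ℝ, Real.fourierChar (-(inner ℝ v z)) •
      (Fa G ρ v - Fa G ρ (v + (1 / (2 * ‖z‖ ^ 2) : ℝ) • z))‖ ≤
      1 / (2 * |z|) * (200 * K ^ 2) * Real.pi := by
    refine (norm_integral_le_integral_norm _).trans ?_
    refine norm_int_le _ _ fun v => ?_
    rw [Circle.norm_smul, hh]
    have h4 : |v - (v + 1 / (2 * z))| = 1 / (2 * |z|) := by
      rw [sub_add_cancel_left, abs_neg, abs_div, abs_one, abs_mul, abs_two]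
    have h5 : 1 / (2 * |z|) ≤ 1 := by
      rw [div_le_one (by positivity)]
      linarith
    have h6 := Fa_lip h hρ0 hρ1 (u := v) (v := v + 1 / (2 * z)) (by rw [h4]; exact h5)
    rw [h4] at h6
    refine h6.trans (le_of_eq ?_)
    ring
  have h7 : ‖(1 / (2 : ℂ))‖ = 1 / 2 := by norm_num
  rw [h7]
  have hzp : 0 < |z| := by linarith
  calc |z| * (1 / 2 * ‖∫ v : ℝ, Real.fourierChar (-(inner ℝ v z)) •
      (Fa G ρ v - Fa G ρ (v + (1 / (2 * ‖z‖ ^ 2) : ℝ) • z))‖)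
      ≤ |z| * (1 / 2 * (1 / (2 * |z|) * (200 * K ^ 2) * Real.pi)) := by gcongr
    _ = 50 * K ^ 2 * Real.pi := by
        field_simp
        ring

/-- both bounds for the reduced covariance -/
lemma Psi_bound (h : Good G G' K) : ∃ C : ℝ, 1 ≤ C ∧ ∀ ρ : ℝ, 0 ≤ ρ → ρ ≤ 1 →
    (∀ z, |Psi G ρ z| ≤ C / (1 + |z|)) ∧ ∀ z z', |Psi G ρ z - Psi G ρ z'| ≤ C * |z - z'| := by
  have hK := h.K0
  refine ⟨100 * K ^ 2 * Real.pi + 2 * Real.pi * (K ^ 2 * Real.pi) + 1, by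
    have : 0 ≤ 100 * K ^ 2 * Real.pi + 2 * Real.pi * (K ^ 2 * Real.pi) := by positivity
    linarith, fun ρ hρ0 hρ1 => ⟨fun z => ?_, fun z z' => ?_⟩⟩
  · rw [le_div_iff₀ (by positivity), Psi_eq h]
    have h1 : |(𝓕 (Fa G ρ) z).re| ≤ ‖𝓕 (Fa G ρ) z‖ := Complex.abs_re_le_norm _
    have h0 : ‖𝓕 (Fa G ρ) z‖ ≤ K ^ 2 * Real.pi := by
      have h2 : ‖𝓕 (Fa G ρ) z‖ ≤ ∫ x, ‖Fa G ρ x‖ := by
        rw [Real.fourier_real_eq]
        refine (norm_integral_le_integral_norm _).trans (le_of_eq ?_)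
        congr 1
        funext x
        rw [Circle.norm_smul]
      exact h2.trans (norm_int_le _ _ (Fa_le h ρ))
    have hp1 : 0 ≤ K ^ 2 * Real.pi := by positivity
    have hp2 : 0 ≤ 2 * Real.pi * (K ^ 2 * Real.pi) := by positivity
    have hA : |(𝓕 (Fa G ρ) z).re| * (1 + |z|) ≤ ‖𝓕 (Fa G ρ) z‖ * (1 + |z|) :=
      mul_le_mul_of_nonneg_right h1 (by positivity)
    refine hA.trans ?_
    rcases le_total |z| 1 with hz | hz
    · have h3 : ‖𝓕 (Fa G ρ) z‖ * (1 + |z|) ≤ (K ^ 2 * Real.pi) * 2 :=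
        mul_le_mul h0 (by linarith) (by positivity) hp1
      linarith
    · have h3 := four_decay h hρ0 hρ1 hz
      nlinarith [norm_nonneg (𝓕 (Fa G ρ) z)]
  · rw [Psi_eq h, Psi_eq h, ← Complex.sub_re]
    refine (Complex.abs_re_le_norm _).trans ((four_lip h ρ z z').trans ?_)
    have hp1 : 0 ≤ 100 * K ^ 2 * Real.pi * |z - z'| := by positivity
    have hp2 : 0 ≤ |z - z'| := abs_nonneg _
    nlinarith

/-- the covariance in terms of the reduced one -/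
lemma cv_red (g : ℝ → ℝ) {m m' : ℕ} (hm : m ≤ m') (x y : ℝ) :
    cv (sf g x (1 / 2 ^ m)) (sf g y (1 / 2 ^ m')) =
      (1 / 2) ^ (m' - m) * Psi (𝓕 (fc g)) ((1 / 2) ^ (m' - m)) (2 ^ m * (x - y)) := by
  have hs : (0 : ℝ) < 1 / 2 ^ m := by positivity
  have hr : (0 : ℝ) < 1 / 2 ^ m' := by positivity
  unfold cv Psi
  have e1 : ∀ ξ : ℝ, |ξ| * (𝓕 (fc (sf g x (1 / 2 ^ m))) ξ *
      conj (𝓕 (fc (sf g y (1 / 2 ^ m'))) ξ)).re =
      (1 / 2 ^ m') * (|1 / 2 ^ m * ξ| * (cexp (-(2 * Real.pi * (2 ^ m * (x - y)) *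
        (1 / 2 ^ m * ξ) : ℝ) * I) * amp (𝓕 (fc g)) ((1 / 2) ^ (m' - m)) (1 / 2 ^ m * ξ)).re) := by
    intro ξ
    rw [four_sf g hs, four_sf g hr, abs_mul, abs_of_pos hs]
    unfold amp
    rw [map_mul, map_mul, Complex.conj_ofReal, ← Complex.exp_conj]
    have e2 : (1 / 2 : ℝ) ^ (m' - m) * (1 / 2 ^ m * ξ) = 1 / 2 ^ m' * ξ := by
      rw [← mul_assoc]
      congr 1
      rw [one_div_pow, one_div_mul_one_div, ← pow_add]
      congr 2
      omega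
    rw [e2]
    have e3 : ((1 / 2 ^ m : ℝ) : ℂ) * cexp (-(2 * Real.pi * x * ξ : ℝ) * I) *
        𝓕 (fc g) (1 / 2 ^ m * ξ) * (((1 / 2 ^ m' : ℝ) : ℂ) *
        cexp (conj (-(2 * Real.pi * y * ξ : ℝ) * I)) * conj (𝓕 (fc g) (1 / 2 ^ m' * ξ))) =
        ((1 / 2 ^ m * (1 / 2 ^ m') : ℝ) : ℂ) * (cexp (-(2 * Real.pi * (2 ^ m * (x - y)) *
        (1 / 2 ^ m * ξ) : ℝ) * I) * (𝓕 (fc g) (1 / 2 ^ m * ξ) *
          conj (𝓕 (fc g) (1 / 2 ^ m' * ξ)))) := by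
      have e4 : cexp (-(2 * Real.pi * (2 ^ m * (x - y)) * (1 / 2 ^ m * ξ) : ℝ) * I) =
          cexp (-(2 * Real.pi * x * ξ : ℝ) * I) * cexp (conj (-(2 * Real.pi * y * ξ : ℝ) * I)) := by
        rw [← Complex.exp_add]
        congr 1
        rw [map_mul, Complex.conj_I, map_neg, Complex.conj_ofReal]
        have e5 : (2 * Real.pi * (2 ^ m * (x - y)) * (1 / 2 ^ m * ξ) : ℝ) =
            2 * Real.pi * x * ξ - 2 * Real.pi * y * ξ := by
          field_simp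
        rw [e5]
        push_cast
        ring
      rw [e4]
      push_cast
      ring
    rw [e3, Complex.re_ofReal_mul]
    ring
  simp only [e1]
  rw [integral_const_mul]
  have e6 := Measure.integral_comp_mul_left (fun u : ℝ => |u| * (cexp (-(2 * Real.pi *
    (2 ^ m * (x - y)) * u : ℝ) * I) * amp (𝓕 (fc g)) ((1 / 2) ^ (m' - m)) u).re) (1 / 2 ^ m : ℝ)
  rw [e6, smul_eq_mul, ← mul_assoc]
  congr 1
  have e7 : (2 : ℝ) ^ m' = 2 ^ (m' - m) * 2 ^ m := by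
    rw [← pow_add]
    congr 1
    omega
  rw [abs_of_pos (by positivity), one_div_pow, e7]
  field_simp

/-- JOB K1 -/
theorem t_K1 : S_K1 := by
  intro g hg
  obtain ⟨K, hK, hb⟩ := four_bound hg
  obtain ⟨K', hK', hb'⟩ := four_bound hg.mulc
  have hG : Good (𝓕 (fc g)) (𝓕 (fun x : ℝ => (-2 * Real.pi * I * x) * fc g x)) (max K K') := by
    refine ⟨lt_max_of_lt_left hK, fun u => four_deriv hg u, fun u => (hb u).trans ?_,
      fun u => (hb' u).trans ?_⟩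
    · exact mul_le_mul_of_nonneg_right (le_max_left _ _) (by positivity)
    · exact mul_le_mul_of_nonneg_right (le_max_right _ _) (by positivity)
  obtain ⟨C, hC1, hC⟩ := Psi_bound hG
  refine ⟨C, hC1, ?_⟩
  have hC0 : 0 < C := by linarith
  intro m m' x x' y
  rcases le_total m m' with hm | hm
  · obtain ⟨h1, h2⟩ := hC ((1 / 2) ^ (m' - m)) (by positivity)
      (pow_le_one₀ (by norm_num) (by norm_num))
    rw [max_eq_right hm, min_eq_left hm, cv_red g hm, cv_red g hm]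
    constructor
    · rw [abs_mul, abs_of_pos (by positivity)]
      have h3 := h1 (2 ^ m * (x - y))
      rw [abs_mul, abs_of_pos (by positivity : (0 : ℝ) < 2 ^ m)] at h3
      calc (1 / 2 : ℝ) ^ (m' - m) * |Psi (𝓕 (fc g)) ((1 / 2) ^ (m' - m)) (2 ^ m * (x - y))|
          ≤ (1 / 2 : ℝ) ^ (m' - m) * (C / (1 + 2 ^ m * |x - y|)) :=
            mul_le_mul_of_nonneg_left h3 (by positivity)
        _ = _ := by ring
    · rw [← mul_sub, abs_mul, abs_of_pos (by positivity)]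
      have h3 := h2 (2 ^ m * (x - y)) (2 ^ m * (x' - y))
      have e : 2 ^ m * (x - y) - 2 ^ m * (x' - y) = 2 ^ m * (x - x') := by ring
      rw [e, abs_mul, abs_of_pos (by positivity : (0 : ℝ) < 2 ^ m)] at h3
      calc (1 / 2 : ℝ) ^ (m' - m) * |Psi (𝓕 (fc g)) ((1 / 2) ^ (m' - m)) (2 ^ m * (x - y)) -
            Psi (𝓕 (fc g)) ((1 / 2) ^ (m' - m)) (2 ^ m * (x' - y))|
          ≤ (1 / 2 : ℝ) ^ (m' - m) * (C * (2 ^ m * |x - x'|)) :=
            mul_le_mul_of_nonneg_left h3 (by positivity)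
        _ = _ := by ring
  · obtain ⟨h1, h2⟩ := hC ((1 / 2) ^ (m - m')) (by positivity)
      (pow_le_one₀ (by norm_num) (by norm_num))
    rw [max_eq_left hm, min_eq_right hm, cv_symm (sf g x (1 / 2 ^ m)),
      cv_symm (sf g x' (1 / 2 ^ m)), cv_red g hm, cv_red g hm]
    constructor
    · rw [abs_mul, abs_of_pos (by positivity)]
      have h3 := h1 (2 ^ m' * (y - x))
      rw [abs_mul, abs_of_pos (by positivity : (0 : ℝ) < 2 ^ m'), abs_sub_comm y x] at h3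
      calc (1 / 2 : ℝ) ^ (m - m') * |Psi (𝓕 (fc g)) ((1 / 2) ^ (m - m')) (2 ^ m' * (y - x))|
          ≤ (1 / 2 : ℝ) ^ (m - m') * (C / (1 + 2 ^ m' * |x - y|)) :=
            mul_le_mul_of_nonneg_left h3 (by positivity)
        _ = _ := by ring
    · rw [← mul_sub, abs_mul, abs_of_pos (by positivity)]
      have h3 := h2 (2 ^ m' * (y - x)) (2 ^ m' * (y - x'))
      have e : 2 ^ m' * (y - x) - 2 ^ m' * (y - x') = 2 ^ m' * (x' - x) := by ring
      rw [e, abs_mul, abs_of_pos (by positivity : (0 : ℝ) < 2 ^ m'), abs_sub_comm x' x] at h3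
      calc (1 / 2 : ℝ) ^ (m - m') * |Psi (𝓕 (fc g)) ((1 / 2) ^ (m - m')) (2 ^ m' * (y - x)) -
            Psi (𝓕 (fc g)) ((1 / 2) ^ (m - m')) (2 ^ m' * (y - x'))|
          ≤ (1 / 2 : ℝ) ^ (m - m') * (C * (2 ^ m' * |x - x'|)) :=
            mul_le_mul_of_nonneg_left h3 (by positivity)
        _ = _ := by ring

end Pool.Agent.Q128.GC
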