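import Pool.Agent.Q278.GC.Stm2
import Pool.Agent.Q278.GC.A

/-!
# Job GC-K2 of helper278's project: the variance with the sharp constant
-/

set_option autoImplicit false

open MeasureTheory Filter Topology Complex
open scoped ComplexConjugate RealInnerProductSpace ContDiff FourierTransform
open Pool.Agent.Q278.MC Pool.Agent.Q278.GC

namespace Pool.Agent.Q128.GC2

variable {H : ℝ → ℝ}

lemma H_diff (hH : Step H) : Differentiable ℝ H := hH.cd.differentiable (by simp)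

lemma h_zero (hH : Step H) {v : ℝ} (hv : 1 < |v|) : deriv H v = 0 := by
  rcases lt_abs.1 hv with h | h
  · have h1 : H =ᶠ[𝓝 v] fun _ => 1 := by
      filter_upwards [Ioi_mem_nhds h] with w hw
      exact hH.hi w (le_of_lt hw)
    rw [h1.deriv_eq, deriv_const]
  · have h1 : H =ᶠ[𝓝 v] fun _ => 0 := by
      filter_upwards [Iio_mem_nhds (show v < -1 by linarith)] with w hw
      exact hH.lo w (le_of_lt hw)
    rw [h1.deriv_eq, deriv_const]

lemma fc_cc {f : ℝ → ℝ} (hf : ContDiff ℝ ∞ f) (hs : ∀ v, 1 < |v| → f v = 0) : CC (fc f) := by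
  constructor
  · exact Complex.ofRealCLM.contDiff.comp hf
  · refine HasCompactSupport.intro (K := Set.Icc (-1) 1) isCompact_Icc fun v hv => ?_
    have : 1 < |v| := by
      rw [Set.mem_Icc, ← abs_le] at hv
      exact not_le.1 hv
    unfold fc
    rw [hs v this, Complex.ofReal_zero]

lemma h_cc (hH : Step H) : CC (fc (deriv H)) :=
  fc_cc (contDiff_infty_iff_deriv.1 hH.cd).2 fun _ hv => h_zero hH hv

lemma fj_cd (hH : Step H) (J : ℕ) : ContDiff ℝ ∞ (fj H J 0) := by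
  unfold fj
  exact (hH.cd.comp (contDiff_const.mul (contDiff_id.sub contDiff_const))).sub
    (hH.cd.comp (contDiff_id.sub contDiff_const))

lemma fj_zero (hH : Step H) (J : ℕ) {v : ℝ} (hv : 1 < |v|) : fj H J 0 v = 0 := by
  unfold fj
  rw [sub_zero]
  have h2 : (1 : ℝ) ≤ 2 ^ J := one_le_pow₀ (by norm_num)
  rcases lt_abs.1 hv with h | h
  · rw [hH.hi v h.le, hH.hi (2 ^ J * v) (by nlinarith), sub_self]
  · rw [hH.lo v (by linarith), hH.lo (2 ^ J * v) (by nlinarith), sub_self]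

lemma fj_cc (hH : Step H) (J : ℕ) : CC (fc (fj H J 0)) :=
  fc_cc (fj_cd hH J) fun _ hv => fj_zero hH J hv

lemma h_int (hH : Step H) : 𝓕 (fc (deriv H)) 0 = 1 := by
  rw [Real.fourier_real_eq_integral_exp_smul]
  have e1 : (fun v : ℝ => cexp (↑(-2 * Real.pi * v * 0) * I) • fc (deriv H) v) =
      fun v => ((deriv H v : ℝ) : ℂ) := by
    funext v
    unfold fc
    simp
  rw [e1, integral_complex_ofReal]
  have hi : Integrable (deriv H) := by
    have := (h_cc hH).int.re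
    exact this
  have h1 : ∫ v, deriv H v = 1 - 0 := by
    refine integral_of_hasDerivAt_of_tendsto (f := H) (fun v => (H_diff hH v).hasDerivAt) hi ?_ ?_
    · refine tendsto_const_nhds.congr' ?_
      filter_upwards [eventually_le_atBot (-1)] with v hv
      exact (hH.lo v hv).symm
    · refine tendsto_const_nhds.congr' ?_
      filter_upwards [eventually_ge_atTop 1] with v hv
      exact (hH.hi v hv).symm
  rw [h1]
  simp

/-- the transform of the derivative of `fj` -/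
lemma four_fj (hH : Step H) (J : ℕ) (ξ : ℝ) :
    (2 * Real.pi * I * ξ) * 𝓕 (fc (fj H J 0)) ξ =
      𝓕 (fc (deriv H)) (1 / 2 ^ J * ξ) - 𝓕 (fc (deriv H)) ξ := by
  have hc := fj_cc hH J
  have hcd : CC (deriv (fc (fj H J 0))) :=
    ⟨(contDiff_infty_iff_deriv.1 hc.cd).2, hc.cs.deriv⟩
  have h1 := congrFun (Real.fourier_deriv hc.int (hc.cd.differentiable (by simp)) hcd.int) ξ
  rw [smul_eq_mul] at h1
  rw [← h1]
  have hs : (0 : ℝ) < 1 / 2 ^ J := by positivity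
  -- the derivative
  have e1 : deriv (fc (fj H J 0)) = fun v => ((2 : ℂ) ^ J * fc (sf (deriv H) 0 (1 / 2 ^ J)) v -
      fc (deriv H) v) := by
    funext v
    have h2 : HasDerivAt (fun v : ℝ => fj H J 0 v) (deriv H (2 ^ J * v) * 2 ^ J - deriv H v) v := by
      have h3 : HasDerivAt (fun v : ℝ => 2 ^ J * v) (2 ^ J) v := by
        simpa using (hasDerivAt_id v).const_mul ((2 : ℝ) ^ J)
      have h4 := (H_diff hH (2 ^ J * v)).hasDerivAt.comp v h3
      have h5 := h4.sub (H_diff hH v).hasDerivAt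
      refine h5.congr_of_eventuallyEq (Eventually.of_forall fun w => ?_)
      unfold fj
      simp
    have h6 := h2.ofReal_comp
    have h7 : deriv (fc (fj H J 0)) v = ((deriv H (2 ^ J * v) * 2 ^ J - deriv H v : ℝ) : ℂ) :=
      h6.deriv
    rw [h7]
    unfold fc sf
    rw [sub_zero, div_div_eq_mul_div, div_one, mul_comm v]
    push_cast
    ring
  rw [e1]
  have hi1 : Integrable (fc (sf (deriv H) 0 (1 / 2 ^ J))) := by
    have : fc (sf (deriv H) 0 (1 / 2 ^ J)) = fun v : ℝ => fc (deriv H) (v * 2 ^ J) := by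
      funext v
      unfold fc sf
      rw [sub_zero, div_div_eq_mul_div, div_one]
    rw [this]
    exact (h_cc hH).int.comp_mul_right' (by positivity)
  have hi2 := (h_cc hH).int
  have hE : ∀ f : ℝ → ℂ, Integrable f →
      Integrable fun v : ℝ => cexp (↑(-2 * Real.pi * v * ξ) * I) • f v := by
    intro f hf
    refine hf.norm.mono' ?_ (Eventually.of_forall fun v => ?_)
    · exact (Continuous.aestronglyMeasurable (Complex.continuous_exp.comp (by fun_prop))).smul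
        hf.aestronglyMeasurable
    · rw [norm_smul, Complex.norm_exp_ofReal_mul_I, one_mul]
  have h8 : 𝓕 (fun v => ((2 : ℂ) ^ J * fc (sf (deriv H) 0 (1 / 2 ^ J)) v - fc (deriv H) v)) ξ =
      (2 : ℂ) ^ J * 𝓕 (fc (sf (deriv H) 0 (1 / 2 ^ J))) ξ - 𝓕 (fc (deriv H)) ξ := by
    rw [Real.fourier_real_eq_integral_exp_smul, Real.fourier_real_eq_integral_exp_smul,
      Real.fourier_real_eq_integral_exp_smul, ← integral_const_mul,
      ← integral_sub ((hE _ hi1).const_mul _) (hE _ hi2)]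
    refine integral_congr_ae (Eventually.of_forall fun v => ?_)
    simp only [smul_eq_mul]
    ring
  rw [h8, four_sf _ hs]
  have e2 : (2 : ℂ) ^ J * (((1 / 2 ^ J : ℝ) : ℂ) * cexp (-(2 * Real.pi * 0 * ξ : ℝ) * I) *
      𝓕 (fc (deriv H)) (1 / 2 ^ J * ξ)) = 𝓕 (fc (deriv H)) (1 / 2 ^ J * ξ) := by
    have h9 : (2 : ℂ) ^ J ≠ 0 := pow_ne_zero _ two_ne_zero
    have h10 : cexp (-(2 * Real.pi * 0 * ξ : ℝ) * I) = 1 := by
      rw [mul_zero, zero_mul]
      simp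
    rw [h10]
    push_cast
    field_simp
  rw [e2]

/-- the integrand of the variance -/
lemma pt (hH : Step H) (J : ℕ) {ξ : ℝ} (hξ : ξ ≠ 0) :
    |ξ| * ‖𝓕 (fc (fj H J 0)) ξ‖ ^ 2 =
      ‖𝓕 (fc (deriv H)) (1 / 2 ^ J * ξ) - 𝓕 (fc (deriv H)) ξ‖ ^ 2 / (4 * Real.pi ^ 2 * |ξ|) := by
  rw [← four_fj hH, norm_mul]
  have h1 : ‖(2 * Real.pi * I * ξ : ℂ)‖ = 2 * Real.pi * |ξ| := by
    rw [norm_mul, norm_mul, norm_mul, Complex.norm_I, Complex.norm_real, Complex.norm_real,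
      Real.norm_eq_abs, Real.norm_eq_abs, abs_of_pos Real.pi_pos]
    norm_num
  rw [h1]
  have h2 : 0 < |ξ| := abs_pos.2 hξ
  have h3 := Real.pi_pos
  field_simp
  ring

/-- the majorant -/
noncomputable def maj (A : ℝ) (J : ℕ) (ξ : ℝ) : ℝ :=
  1 / (4 * Real.pi ^ 2) * ((Set.Icc (1 : ℝ) (2 ^ J)).indicator (fun x => x⁻¹) ξ +
    (Set.Icc (-(2 ^ J) : ℝ) (-1)).indicator (fun x => -x⁻¹) ξ) + A * (1 + ξ ^ 2)⁻¹ +
    A * ((1 / 2 ^ J) * (1 + (1 / 2 ^ J * ξ) ^ 2)⁻¹)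

lemma ind_ge (J : ℕ) {ξ : ℝ} (h1 : 1 ≤ |ξ|) (h2 : |ξ| ≤ 2 ^ J) :
    |ξ|⁻¹ ≤ (Set.Icc (1 : ℝ) (2 ^ J)).indicator (fun x => x⁻¹) ξ +
      (Set.Icc (-(2 ^ J) : ℝ) (-1)).indicator (fun x => -x⁻¹) ξ := by
  rcases le_abs.1 h1 with h | h
  · have h3 : |ξ| = ξ := abs_of_pos (by linarith)
    rw [h3] at h2 ⊢
    rw [Set.indicator_of_mem (show ξ ∈ Set.Icc (1 : ℝ) (2 ^ J) from ⟨h, h2⟩),
      Set.indicator_of_notMem, add_zero]
    rintro ⟨_, h4⟩
    linarith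
  · have h3 : |ξ| = -ξ := abs_of_neg (by linarith)
    rw [h3] at h2 ⊢
    rw [Set.indicator_of_notMem, Set.indicator_of_mem
      (show ξ ∈ Set.Icc (-(2 ^ J) : ℝ) (-1) from ⟨by linarith, by linarith⟩), zero_add, inv_neg]
    rintro ⟨h4, _⟩
    linarith

lemma ind_nonneg (J : ℕ) (ξ : ℝ) :
    0 ≤ (Set.Icc (1 : ℝ) (2 ^ J)).indicator (fun x => x⁻¹) ξ +
      (Set.Icc (-(2 ^ J) : ℝ) (-1)).indicator (fun x => -x⁻¹) ξ := by
  refine add_nonneg (Set.indicator_nonneg (fun x hx => ?_) ξ)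
    (Set.indicator_nonneg (fun x hx => ?_) ξ)
  · exact inv_nonneg.2 (by linarith [hx.1])
  · have : x⁻¹ ≤ 0 := inv_nonpos.2 (by linarith [hx.2])
    linarith

/-- the pointwise bound -/
lemma pt_le (hH : Step H) : ∃ A : ℝ, 0 ≤ A ∧ ∀ (J : ℕ) (ξ : ℝ),
    |ξ| * ‖𝓕 (fc (fj H J 0)) ξ‖ ^ 2 ≤ maj A J ξ := by
  obtain ⟨K, hK, hb⟩ := four_bound (h_cc hH)
  obtain ⟨K', hK', hb'⟩ := four_bound (h_cc hH).mulc
  set G := 𝓕 (fc (deriv H)) with hG
  have hw : ∀ u : ℝ, (1 + u ^ 2)⁻¹ ≤ 1 := fun u =>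
    inv_le_one_of_one_le₀ (by nlinarith [sq_nonneg u])
  have hw0 : ∀ u : ℝ, 0 ≤ (1 + u ^ 2)⁻¹ := fun u => by positivity
  have hb1 : ∀ u : ℝ, ‖G u‖ ≤ K * (1 + u ^ 2)⁻¹ := by
    intro u
    refine (hb u).trans (mul_le_mul_of_nonneg_left ?_ hK.le)
    calc (1 + u ^ 2)⁻¹ ^ 3 = (1 + u ^ 2)⁻¹ * ((1 + u ^ 2)⁻¹ * (1 + u ^ 2)⁻¹) := by ring
      _ ≤ (1 + u ^ 2)⁻¹ * (1 * 1) := by
          have := hw u
          gcongr
      _ = _ := by ring
  have hlip : ∀ u v : ℝ, ‖G u - G v‖ ≤ K' * |u - v| := by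
    intro u v
    have hc : Convex ℝ (Set.univ : Set ℝ) := convex_univ
    have h1 := hc.norm_image_sub_le_of_norm_hasDerivWithin_le (f := G)
      (f' := 𝓕 (fun x : ℝ => (-2 * Real.pi * I * x) * fc (deriv H) x)) (C := K')
      (fun w _ => (four_deriv (h_cc hH) w).hasDerivWithinAt) (fun w _ => by
        refine (hb' w).trans ?_
        have : (1 + w ^ 2)⁻¹ ^ 3 ≤ 1 := pow_le_one₀ (hw0 w) (hw w)
        nlinarith) (Set.mem_univ v) (Set.mem_univ u)
    exact h1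
  have hG0 : G 0 = 1 := h_int hH
  have hpi : (1 : ℝ) ≤ 4 * Real.pi ^ 2 := by
    have := Real.pi_gt_three
    nlinarith
  obtain ⟨A, hA⟩ : ∃ A : ℝ, A = 2 * K' ^ 2 + 4 * K ^ 2 + 2 * (2 + K + K') * (K + K') := ⟨_, rfl⟩
  have hA0 : 0 ≤ A := by rw [hA]; positivity
  refine ⟨A, hA0, fun J ξ => ?_⟩
  have hs0 : (0 : ℝ) < 1 / 2 ^ J := by positivity
  have hs1 : (1 : ℝ) / 2 ^ J ≤ 1 := by
    rw [div_le_one (by positivity)]
    exact one_le_pow₀ (by norm_num)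
  have hpos1 : 0 ≤ 1 / (4 * Real.pi ^ 2) * ((Set.Icc (1 : ℝ) (2 ^ J)).indicator (fun x => x⁻¹) ξ +
    (Set.Icc (-(2 ^ J) : ℝ) (-1)).indicator (fun x => -x⁻¹) ξ) :=
    mul_nonneg (by positivity) (ind_nonneg J ξ)
  have hpos2 : 0 ≤ A * (1 + ξ ^ 2)⁻¹ := mul_nonneg hA0 (hw0 ξ)
  have hpos3 : 0 ≤ A * ((1 / 2 ^ J) * (1 + (1 / 2 ^ J * ξ) ^ 2)⁻¹) :=
    mul_nonneg hA0 (mul_nonneg hs0.le (hw0 _))
  rcases eq_or_ne ξ 0 with hξ | hξ
  · subst hξ
    rw [abs_zero, zero_mul]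
    unfold maj
    linarith
  have hx : 0 < |ξ| := abs_pos.2 hξ
  rw [pt hH J hξ]
  set W := ‖G (1 / 2 ^ J * ξ) - G ξ‖ with hW
  have hW0 : 0 ≤ W := norm_nonneg _
  rcases le_total |ξ| 1 with h1 | h1
  · -- small frequencies
    have h2 : W ≤ K' * |ξ| := by
      refine (hlip _ _).trans (mul_le_mul_of_nonneg_left ?_ hK'.le)
      have : 1 / 2 ^ J * ξ - ξ = -((1 - 1 / 2 ^ J) * ξ) := by ring
      rw [this, abs_neg, abs_mul, abs_of_nonneg (by linarith)]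
      nlinarith
    have h3 : W ^ 2 / (4 * Real.pi ^ 2 * |ξ|) ≤ K' ^ 2 := by
      rw [div_le_iff₀ (by positivity)]
      have h4 : W ^ 2 ≤ (K' * |ξ|) ^ 2 := pow_le_pow_left₀ hW0 h2 2
      have h5 : |ξ| ^ 2 ≤ 4 * Real.pi ^ 2 * |ξ| := by nlinarith
      calc W ^ 2 ≤ K' ^ 2 * |ξ| ^ 2 := by rw [← mul_pow]; exact h4
        _ ≤ _ := mul_le_mul_of_nonneg_left h5 (sq_nonneg _)
    have h6 : K' ^ 2 ≤ A * (1 + ξ ^ 2)⁻¹ := by
      rw [← div_eq_mul_inv, le_div_iff₀ (by positivity)]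
      have h7 : ξ ^ 2 ≤ 1 := by rw [← sq_abs]; exact pow_le_one₀ hx.le h1
      have h8 : 0 ≤ 4 * K ^ 2 + 2 * (2 + K + K') * (K + K') := by positivity
      have h9 : K' ^ 2 * (1 + ξ ^ 2) ≤ K' ^ 2 * 2 := mul_le_mul_of_nonneg_left (by linarith)
        (sq_nonneg _)
      linarith
    unfold maj
    linarith
  rcases le_total |ξ| (2 ^ J) with h2 | h2
  · -- medium frequencies
    obtain ⟨a, ha⟩ : ∃ a : ℝ, a = 1 / 2 ^ J * |ξ| := ⟨_, rfl⟩
    obtain ⟨b, hb2⟩ : ∃ b : ℝ, b = (1 + ξ ^ 2)⁻¹ := ⟨_, rfl⟩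
    have ha0 : 0 ≤ a := by rw [ha]; positivity
    have ha1 : a ≤ 1 := by
      rw [ha, one_div, inv_mul_le_iff₀ (by positivity), mul_one]
      exact h2
    have hb0 : 0 ≤ b := by rw [hb2]; exact hw0 ξ
    have hb1' : b ≤ 1 := by rw [hb2]; exact hw ξ
    have h3 : W ≤ 1 + (K' * a + K * b) := by
      have h4 : G (1 / 2 ^ J * ξ) - G ξ = (G (1 / 2 ^ J * ξ) - G 0) + 1 - G ξ := by
        rw [hG0]; ring
      have h5 := hlip (1 / 2 ^ J * ξ) 0
      rw [sub_zero, abs_mul, abs_of_pos hs0, ← ha] at h5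
      have h6 := hb1 ξ
      rw [← hb2] at h6
      rw [hW, h4]
      refine (norm_sub_le _ _).trans ?_
      have h7 := norm_add_le (G (1 / 2 ^ J * ξ) - G 0) 1
      rw [norm_one] at h7
      linarith
    obtain ⟨x, hxx⟩ : ∃ x : ℝ, x = K' * a + K * b := ⟨_, rfl⟩
    rw [← hxx] at h3
    have hx0 : 0 ≤ x := by rw [hxx]; positivity
    have hx1 : x ≤ K + K' := by rw [hxx]; nlinarith
    have h4 : W ^ 2 ≤ 1 + (2 + K + K') * x := by
      have := pow_le_pow_left₀ hW0 h3 2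
      nlinarith
    have h5 : W ^ 2 / (4 * Real.pi ^ 2 * |ξ|) ≤ 1 / (4 * Real.pi ^ 2) * |ξ|⁻¹ +
        (2 + K + K') * x * |ξ|⁻¹ := by
      have h6 : W ^ 2 / (4 * Real.pi ^ 2 * |ξ|) ≤ (1 + (2 + K + K') * x) / (4 * Real.pi ^ 2 * |ξ|) :=
        div_le_div_of_nonneg_right h4 (by positivity)
      have h7 : (1 + (2 + K + K') * x) / (4 * Real.pi ^ 2 * |ξ|) =
          1 / (4 * Real.pi ^ 2) * |ξ|⁻¹ + 1 / (4 * Real.pi ^ 2) * ((2 + K + K') * x * |ξ|⁻¹) := by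
        field_simp
      rw [h7] at h6
      have h8 : 1 / (4 * Real.pi ^ 2) ≤ 1 := by
        rw [div_le_one (by positivity)]
        exact hpi
      have h9 : 0 ≤ (2 + K + K') * x * |ξ|⁻¹ := by positivity
      nlinarith
    have h6 : x * |ξ|⁻¹ ≤ (K + K') * (b + 2 * ((1 / 2 ^ J) * (1 + (1 / 2 ^ J * ξ) ^ 2)⁻¹)) := by
      have h7 : a * |ξ|⁻¹ = 1 / 2 ^ J := by
        rw [ha]
        field_simp
      have h8 : (1 / 2 ^ J * ξ) ^ 2 ≤ 1 := by
        rw [mul_pow, ← sq_abs ξ, ← mul_pow, ← ha]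
        exact pow_le_one₀ ha0 ha1
      have h9 : (1 : ℝ) / 2 ≤ (1 + (1 / 2 ^ J * ξ) ^ 2)⁻¹ := by
        rw [one_div]
        apply inv_anti₀ (by positivity)
        linarith
      have h10 : (1 : ℝ) / 2 ^ J ≤ 2 * ((1 / 2 ^ J) * (1 + (1 / 2 ^ J * ξ) ^ 2)⁻¹) := by
        nlinarith
      have h11 : b * |ξ|⁻¹ ≤ b := by
        have : |ξ|⁻¹ ≤ 1 := inv_le_one_of_one_le₀ h1
        nlinarith
      have h12 : x * |ξ|⁻¹ = K' * (a * |ξ|⁻¹) + K * (b * |ξ|⁻¹) := by rw [hxx]; ring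
      rw [h12, h7]
      have h13 : 0 ≤ 2 * ((1 / 2 ^ J) * (1 + (1 / 2 ^ J * ξ) ^ 2)⁻¹) := by positivity
      have h14 : K' * (1 / 2 ^ J) ≤ K' * (2 * ((1 / 2 ^ J) * (1 + (1 / 2 ^ J * ξ) ^ 2)⁻¹)) :=
        mul_le_mul_of_nonneg_left h10 hK'.le
      have h15 : K * (b * |ξ|⁻¹) ≤ K * b := mul_le_mul_of_nonneg_left h11 hK.le
      have h16 : 0 ≤ K' * b := by positivity
      have h17 : 0 ≤ K * (2 * ((1 / 2 ^ J) * (1 + (1 / 2 ^ J * ξ) ^ 2)⁻¹)) := by positivity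
      linarith
    have h7 := mul_le_mul_of_nonneg_left (ind_ge J h1 h2) (by positivity :
      0 ≤ 1 / (4 * Real.pi ^ 2))
    have h8 := mul_le_mul_of_nonneg_left h6 (by positivity : 0 ≤ 2 + K + K')
    obtain ⟨q, hq⟩ : ∃ q : ℝ, q = (1 / 2 ^ J) * (1 + (1 / 2 ^ J * ξ) ^ 2)⁻¹ := ⟨_, rfl⟩
    have hq0 : 0 ≤ q := by rw [hq]; positivity
    unfold maj
    rw [← hq] at h8 ⊢
    rw [← hb2]
    have h9 : (2 + K + K') * ((K + K') * (b + 2 * q)) ≤ A * b + A * q := by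
      have h10 : 0 ≤ 2 * K' ^ 2 + 4 * K ^ 2 := by positivity
      have h11 : 0 ≤ (2 + K + K') * (K + K') := by positivity
      have h12 : (2 + K + K') * ((K + K') * (b + 2 * q)) =
        ((2 + K + K') * (K + K')) * b + (2 * (2 + K + K') * (K + K')) * q := by ring
      have h13 : (2 + K + K') * (K + K') ≤ A := by rw [hA]; linarith
      have h14 : 2 * (2 + K + K') * (K + K') ≤ A := by rw [hA]; linarith
      have h15 := mul_le_mul_of_nonneg_right h13 hb0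
      have h16 := mul_le_mul_of_nonneg_right h14 hq0
      linarith
    have h10 : (2 + K + K') * (x * |ξ|⁻¹) = (2 + K + K') * x * |ξ|⁻¹ := by ring
    linarith
  · -- large frequencies
    obtain ⟨q, hq⟩ : ∃ q : ℝ, q = (1 + (1 / 2 ^ J * ξ) ^ 2)⁻¹ := ⟨_, rfl⟩
    have hq0 : 0 ≤ q := by rw [hq]; positivity
    have hq1 : q ≤ 1 := by rw [hq]; exact hw _
    have h3 : W ≤ 2 * (K * q) := by
      have h4 := hb1 (1 / 2 ^ J * ξ)
      have h5 := hb1 ξ
      rw [← hq] at h4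
      have h6 : (1 + ξ ^ 2)⁻¹ ≤ q := by
        rw [hq]
        apply inv_anti₀ (by positivity)
        have : (1 / 2 ^ J * ξ) ^ 2 ≤ ξ ^ 2 := by
          rw [mul_pow]
          have : ((1 : ℝ) / 2 ^ J) ^ 2 ≤ 1 := pow_le_one₀ hs0.le hs1
          nlinarith [sq_nonneg ξ]
        linarith
      have h7 : K * (1 + ξ ^ 2)⁻¹ ≤ K * q := mul_le_mul_of_nonneg_left h6 hK.le
      refine (norm_sub_le _ _).trans ?_
      linarith
    have h4 : W ^ 2 ≤ 4 * K ^ 2 * q := by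
      have h5 := pow_le_pow_left₀ hW0 h3 2
      have h6 : q ^ 2 ≤ q := by nlinarith
      nlinarith [sq_nonneg K]
    have h5 : W ^ 2 / (4 * Real.pi ^ 2 * |ξ|) ≤ A * (1 / 2 ^ J * q) := by
      have h6 : W ^ 2 / (4 * Real.pi ^ 2 * |ξ|) ≤ W ^ 2 / 2 ^ J := by
        apply div_le_div_of_nonneg_left (sq_nonneg _) (by positivity)
        nlinarith
      refine h6.trans ?_
      have h7 : W ^ 2 / 2 ^ J ≤ (4 * K ^ 2 * q) / 2 ^ J :=
        div_le_div_of_nonneg_right h4 (by positivity)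
      refine h7.trans ?_
      have h8 : (4 * K ^ 2 * q) / 2 ^ J = (4 * K ^ 2) * (1 / 2 ^ J * q) := by ring
      rw [h8]
      apply mul_le_mul_of_nonneg_right _ (by positivity)
      rw [hA]
      have : 0 ≤ 2 * K' ^ 2 + 2 * (2 + K + K') * (K + K') := by positivity
      linarith
    unfold maj
    rw [← hq]
    linarith

/-- the majorant is integrable, and its integral -/
lemma maj_int (A : ℝ) (J : ℕ) : Integrable (maj A J) ∧
    ∫ ξ, maj A J ξ = J * Real.log 2 / (2 * Real.pi ^ 2) + 2 * A * Real.pi := by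
  have h2 : (1 : ℝ) ≤ 2 ^ J := one_le_pow₀ (by norm_num)
  have hi1 : Integrable ((Set.Icc (1 : ℝ) (2 ^ J)).indicator (fun x : ℝ => x⁻¹)) := by
    rw [integrable_indicator_iff measurableSet_Icc]
    refine ContinuousOn.integrableOn_Icc (ContinuousOn.inv₀ continuousOn_id fun x hx => ?_)
    have : (1 : ℝ) ≤ x := hx.1
    exact (by linarith : (0 : ℝ) < x).ne'
  have hi2 : Integrable ((Set.Icc (-(2 ^ J) : ℝ) (-1)).indicator (fun x : ℝ => -x⁻¹)) := by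
    rw [integrable_indicator_iff measurableSet_Icc]
    refine ContinuousOn.integrableOn_Icc (ContinuousOn.neg (ContinuousOn.inv₀ continuousOn_id
      fun x hx => ?_))
    have : x ≤ (-1 : ℝ) := hx.2
    exact (by linarith : x < (0 : ℝ)).ne
  have e1 : ∫ ξ, (Set.Icc (1 : ℝ) (2 ^ J)).indicator (fun x : ℝ => x⁻¹) ξ = J * Real.log 2 := by
    rw [integral_indicator measurableSet_Icc, integral_Icc_eq_integral_Ioc,
      ← intervalIntegral.integral_of_le h2, integral_inv_of_pos (by norm_num) (by positivity),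
      div_one, Real.log_pow]
  have e2 : ∫ ξ, (Set.Icc (-(2 ^ J) : ℝ) (-1)).indicator (fun x : ℝ => -x⁻¹) ξ =
      J * Real.log 2 := by
    rw [integral_indicator measurableSet_Icc, integral_Icc_eq_integral_Ioc,
      ← intervalIntegral.integral_of_le (by linarith), intervalIntegral.integral_neg,
      integral_inv_of_neg (by linarith) (by norm_num), neg_div_neg_eq, one_div, Real.log_inv,
      neg_neg, Real.log_pow]
  have hi3 : Integrable fun ξ : ℝ => (1 + ξ ^ 2)⁻¹ := integrable_inv_one_add_sq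
  have hs0 : (1 : ℝ) / 2 ^ J ≠ 0 := by positivity
  have hi4 : Integrable fun ξ : ℝ => (1 / 2 ^ J) * (1 + (1 / 2 ^ J * ξ) ^ 2)⁻¹ :=
    (hi3.comp_mul_left' hs0).const_mul _
  have e3 : ∫ ξ : ℝ, (1 + ξ ^ 2)⁻¹ = Real.pi := integral_univ_inv_one_add_sq
  have e4 : ∫ ξ : ℝ, (1 / 2 ^ J) * (1 + (1 / 2 ^ J * ξ) ^ 2)⁻¹ = Real.pi := by
    rw [integral_const_mul, Measure.integral_comp_mul_left (fun u : ℝ => (1 + u ^ 2)⁻¹), e3,
      abs_of_pos (by positivity), smul_eq_mul, ← mul_assoc, mul_inv_cancel₀ hs0, one_mul]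
  have hI : Integrable fun ξ : ℝ => 1 / (4 * Real.pi ^ 2) *
      ((Set.Icc (1 : ℝ) (2 ^ J)).indicator (fun x => x⁻¹) ξ +
      (Set.Icc (-(2 ^ J) : ℝ) (-1)).indicator (fun x => -x⁻¹) ξ) := (hi1.add hi2).const_mul _
  have hI2 : Integrable fun ξ : ℝ => 1 / (4 * Real.pi ^ 2) *
      ((Set.Icc (1 : ℝ) (2 ^ J)).indicator (fun x => x⁻¹) ξ +
      (Set.Icc (-(2 ^ J) : ℝ) (-1)).indicator (fun x => -x⁻¹) ξ) + A * (1 + ξ ^ 2)⁻¹ :=
    hI.add (hi3.const_mul A)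
  constructor
  · exact hI2.add (hi4.const_mul A)
  · unfold maj
    rw [integral_add hI2 (hi4.const_mul A), integral_add hI (hi3.const_mul A), integral_const_mul,
      integral_add hi1 hi2, e1, e2, integral_const_mul, e3, integral_const_mul, e4]
    have := Real.pi_pos
    field_simp
    ring

/-- JOB K2 -/
theorem t_K2 : S_K2 := by
  intro H hH
  obtain ⟨A, hA0, hA⟩ := pt_le hH
  refine ⟨2 * A * Real.pi + 1, by
    have : 0 ≤ 2 * A * Real.pi := by positivity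
    linarith, fun J => ?_⟩
  obtain ⟨h1, h2⟩ := maj_int A J
  have h3 : kj H J J 0 0 ≤ ∫ ξ, maj A J ξ := by
    unfold kj cv
    refine integral_mono_of_nonneg (Eventually.of_forall fun ξ => ?_) h1
      (Eventually.of_forall fun ξ => ?_)
    · show 0 ≤ |ξ| * (𝓕 (fc (fj H J 0)) ξ * conj (𝓕 (fc (fj H J 0)) ξ)).re
      rw [Complex.mul_conj, Complex.ofReal_re]
      exact mul_nonneg (abs_nonneg _) (Complex.normSq_nonneg _)
    · show |ξ| * (𝓕 (fc (fj H J 0)) ξ * conj (𝓕 (fc (fj H J 0)) ξ)).re ≤ maj A J ξ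
      rw [Complex.mul_conj, Complex.ofReal_re, Complex.normSq_eq_norm_sq]
      exact hA J ξ
  rw [h2] at h3
  linarith

end Pool.Agent.Q128.GC2
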