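import Pool.Agent.Q278.GC.Stm3
import Pool.Agent.Q128.GC.K2

/-!
# Job GC-K2b of helper278's project: the two-sided form of the variance
-/

set_option autoImplicit false

open MeasureTheory Filter Topology Complex
open scoped ComplexConjugate RealInnerProductSpace ContDiff FourierTransform
open Pool.Agent.Q278.MC Pool.Agent.Q278.GC Pool.Agent.Q128.GC2

namespace Pool.Agent.Q128.GC3

variable {H : ℝ → ℝ}

lemma ind_le (J : ℕ) {ξ : ℝ} (h1 : ξ ≠ 0) :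
    (Set.Icc (1 : ℝ) (2 ^ J)).indicator (fun x => x⁻¹) ξ +
      (Set.Icc (-(2 ^ J) : ℝ) (-1)).indicator (fun x => -x⁻¹) ξ ≤ |ξ|⁻¹ := by
  have h0 : 0 < |ξ|⁻¹ := inv_pos.2 (abs_pos.2 h1)
  by_cases ha : ξ ∈ Set.Icc (1 : ℝ) (2 ^ J)
  · have h3 : |ξ| = ξ := abs_of_pos (by linarith [ha.1])
    rw [Set.indicator_of_mem ha, Set.indicator_of_notMem, add_zero, h3]
    rintro ⟨_, h4⟩
    linarith [ha.1]
  · rw [Set.indicator_of_notMem ha, zero_add]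
    by_cases hb : ξ ∈ Set.Icc (-(2 ^ J) : ℝ) (-1)
    · have h3 : |ξ| = -ξ := abs_of_neg (by linarith [hb.2])
      rw [Set.indicator_of_mem hb, h3, inv_neg]
    · rw [Set.indicator_of_notMem hb]
      exact h0.le

lemma ind_zero (J : ℕ) {ξ : ℝ} (h1 : |ξ| < 1 ∨ 2 ^ J < |ξ|) :
    (Set.Icc (1 : ℝ) (2 ^ J)).indicator (fun x => x⁻¹) ξ +
      (Set.Icc (-(2 ^ J) : ℝ) (-1)).indicator (fun x => -x⁻¹) ξ = 0 := by
  rw [Set.indicator_of_notMem, Set.indicator_of_notMem, add_zero]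
  · rintro ⟨h4, h5⟩
    have h3 : |ξ| = -ξ := abs_of_neg (by linarith)
    rw [h3] at h1
    rcases h1 with h | h <;> linarith
  · rintro ⟨h4, h5⟩
    have h3 : |ξ| = ξ := abs_of_pos (by linarith)
    rw [h3] at h1
    rcases h1 with h | h <;> linarith

/-- the pointwise lower bound -/
lemma pt_ge (hH : Step H) : ∃ A : ℝ, 0 ≤ A ∧ ∀ (J : ℕ) (ξ : ℝ),
    maj (-A) J ξ ≤ |ξ| * ‖𝓕 (fc (fj H J 0)) ξ‖ ^ 2 := by
  obtain ⟨K, hK, hb⟩ := four_bound (h_cc hH)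
  obtain ⟨K', hK', hb'⟩ := four_bound (h_cc hH).mulc
  set G := 𝓕 (fc (deriv H)) with hG
  have hw : ∀ u : ℝ, (1 + u ^ 2)⁻¹ ≤ 1 := fun u =>
    inv_le_one_of_one_le₀ (by nlinarith [sq_nonneg u])
  have hw0 : ∀ u : ℝ, 0 ≤ (1 + u ^ 2)⁻¹ := fun u => by positivity
  have hb1 : ∀ u : ℝ, ‖G u‖ ≤ K * (1 + u ^ 2)⁻¹ := by
    intro u
    refine (hb u).trans (mul_le_mul_of_nonneg_left ?_ hK.le)
    calc (1 + u ^ 2)⁻¹ ^ 3 = (1 + u ^ 2)⁻¹ * ((1 + u ^ 2)⁻¹ * (1 + u ^ 2)⁻¹) := by ring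
      _ ≤ (1 + u ^ 2)⁻¹ * (1 * 1) := by
          have := hw u
          gcongr
      _ = _ := by ring
  have hlip : ∀ u v : ℝ, ‖G u - G v‖ ≤ K' * |u - v| := by
    intro u v
    have hc : Convex ℝ (Set.univ : Set ℝ) := convex_univ
    have h1 := hc.norm_image_sub_le_of_norm_hasDerivWithin_le (f := G)
      (f' := 𝓕 (fun x : ℝ => (-2 * Real.pi * I * x) * fc (deriv H) x)) (C := K')
      (fun w _ => (four_deriv (h_cc hH) w).hasDerivWithinAt) (fun w _ => by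
        refine (hb' w).trans ?_
        have : (1 + w ^ 2)⁻¹ ^ 3 ≤ 1 := pow_le_one₀ (hw0 w) (hw w)
        nlinarith) (Set.mem_univ v) (Set.mem_univ u)
    exact h1
  have hG0 : G 0 = 1 := h_int hH
  have hpi : (1 : ℝ) ≤ 4 * Real.pi ^ 2 := by
    have := Real.pi_gt_three
    nlinarith
  obtain ⟨A, hA⟩ : ∃ A : ℝ, A = 4 * (K + K') := ⟨_, rfl⟩
  have hA0 : 0 ≤ A := by rw [hA]; positivity
  refine ⟨A, hA0, fun J ξ => ?_⟩
  have hs0 : (0 : ℝ) < 1 / 2 ^ J := by positivity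
  have hpos2 : 0 ≤ A * (1 + ξ ^ 2)⁻¹ := mul_nonneg hA0 (hw0 ξ)
  have hpos3 : 0 ≤ A * ((1 / 2 ^ J) * (1 + (1 / 2 ^ J * ξ) ^ 2)⁻¹) :=
    mul_nonneg hA0 (mul_nonneg hs0.le (hw0 _))
  have hR : 0 ≤ |ξ| * ‖𝓕 (fc (fj H J 0)) ξ‖ ^ 2 := by positivity
  by_cases h0 : |ξ| < 1 ∨ 2 ^ J < |ξ|
  · unfold maj
    rw [ind_zero J h0]
    linarith
  push Not at h0
  obtain ⟨h1, h2⟩ := h0
  have hx : 0 < |ξ| := by linarith
  rw [pt hH J (abs_pos.1 hx)]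
  set W := ‖G (1 / 2 ^ J * ξ) - G ξ‖ with hW
  have hW0 : 0 ≤ W := norm_nonneg _
  obtain ⟨a, ha⟩ : ∃ a : ℝ, a = 1 / 2 ^ J * |ξ| := ⟨_, rfl⟩
  obtain ⟨b, hb2⟩ : ∃ b : ℝ, b = (1 + ξ ^ 2)⁻¹ := ⟨_, rfl⟩
  have ha0 : 0 ≤ a := by rw [ha]; positivity
  have ha1 : a ≤ 1 := by
    rw [ha, one_div, inv_mul_le_iff₀ (by positivity), mul_one]
    exact h2
  have hb0 : 0 ≤ b := by rw [hb2]; exact hw0 ξ
  have h3 : 1 - (K' * a + K * b) ≤ W := by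
    have h4 : (1 : ℂ) = (G (1 / 2 ^ J * ξ) - G ξ) + (G 0 - G (1 / 2 ^ J * ξ)) + G ξ := by
      rw [hG0]; ring
    have h5 := hlip 0 (1 / 2 ^ J * ξ)
    rw [zero_sub, abs_neg, abs_mul, abs_of_pos hs0, ← ha] at h5
    have h6 := hb1 ξ
    rw [← hb2] at h6
    have h7 : ‖(1 : ℂ)‖ ≤ W + ‖G 0 - G (1 / 2 ^ J * ξ)‖ + ‖G ξ‖ := by
      conv_lhs => rw [h4]
      refine (norm_add_le _ _).trans ?_
      have := norm_add_le (G (1 / 2 ^ J * ξ) - G ξ) (G 0 - G (1 / 2 ^ J * ξ))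
      linarith
    rw [norm_one] at h7
    linarith
  obtain ⟨x, hxx⟩ : ∃ x : ℝ, x = K' * a + K * b := ⟨_, rfl⟩
  rw [← hxx] at h3
  have hx0 : 0 ≤ x := by rw [hxx]; positivity
  have h4 : 1 - 2 * x ≤ W ^ 2 := by
    rcases le_total x 1 with h | h
    · have := pow_le_pow_left₀ (by linarith : (0 : ℝ) ≤ 1 - x) h3 2
      nlinarith [sq_nonneg x]
    · nlinarith [sq_nonneg W]
  have h5 : 1 / (4 * Real.pi ^ 2) * |ξ|⁻¹ - 2 * (x * |ξ|⁻¹) ≤ W ^ 2 / (4 * Real.pi ^ 2 * |ξ|) := by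
    have h6 : (1 - 2 * x) / (4 * Real.pi ^ 2 * |ξ|) ≤ W ^ 2 / (4 * Real.pi ^ 2 * |ξ|) :=
      div_le_div_of_nonneg_right h4 (by positivity)
    have h7 : (1 - 2 * x) / (4 * Real.pi ^ 2 * |ξ|) =
        1 / (4 * Real.pi ^ 2) * |ξ|⁻¹ - 1 / (4 * Real.pi ^ 2) * (2 * (x * |ξ|⁻¹)) := by
      field_simp
    rw [h7] at h6
    have h8 : 1 / (4 * Real.pi ^ 2) ≤ 1 := by
      rw [div_le_one (by positivity)]
      exact hpi
    have h9 : 0 ≤ 2 * (x * |ξ|⁻¹) := by positivity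
    nlinarith
  obtain ⟨q, hq⟩ : ∃ q : ℝ, q = (1 / 2 ^ J) * (1 + (1 / 2 ^ J * ξ) ^ 2)⁻¹ := ⟨_, rfl⟩
  have hq0 : 0 ≤ q := by rw [hq]; exact mul_nonneg hs0.le (hw0 _)
  have h6 : x * |ξ|⁻¹ ≤ (K + K') * (b + 2 * q) := by
    have h7 : a * |ξ|⁻¹ = 1 / 2 ^ J := by
      rw [ha]
      field_simp
    have h8 : (1 / 2 ^ J * ξ) ^ 2 ≤ 1 := by
      rw [mul_pow, ← sq_abs ξ, ← mul_pow, ← ha]
      exact pow_le_one₀ ha0 ha1
    have h9 : (1 : ℝ) / 2 ≤ (1 + (1 / 2 ^ J * ξ) ^ 2)⁻¹ := by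
      rw [one_div]
      apply inv_anti₀ (by positivity)
      linarith
    have h10 : (1 : ℝ) / 2 ^ J ≤ 2 * q := by
      rw [hq]
      nlinarith
    have h11 : b * |ξ|⁻¹ ≤ b := by
      have : |ξ|⁻¹ ≤ 1 := inv_le_one_of_one_le₀ h1
      nlinarith
    have h12 : x * |ξ|⁻¹ = K' * (a * |ξ|⁻¹) + K * (b * |ξ|⁻¹) := by rw [hxx]; ring
    rw [h12, h7]
    have h14 : K' * (1 / 2 ^ J) ≤ K' * (2 * q) := mul_le_mul_of_nonneg_left h10 hK'.le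
    have h15 : K * (b * |ξ|⁻¹) ≤ K * b := mul_le_mul_of_nonneg_left h11 hK.le
    have h16 : 0 ≤ K' * b := by positivity
    have h17 : 0 ≤ K * (2 * q) := by positivity
    linarith
  have h7 := mul_le_mul_of_nonneg_left (ind_le J (abs_pos.1 hx)) (by positivity :
    0 ≤ 1 / (4 * Real.pi ^ 2))
  unfold maj
  rw [← hq, ← hb2]
  have h9 : 2 * ((K + K') * (b + 2 * q)) ≤ A * b + A * q := by
    rw [hA]
    have : 0 ≤ (K + K') * b := by positivity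
    nlinarith
  linarith

/-- the integrand of the variance is continuous -/
lemma meas (hH : Step H) (J : ℕ) :
    AEStronglyMeasurable (fun ξ : ℝ => |ξ| * ‖𝓕 (fc (fj H J 0)) ξ‖ ^ 2) volume := by
  have hc : Continuous (𝓕 (fc (fj H J 0))) := by
    rw [continuous_iff_continuousAt]
    exact fun ξ => (four_deriv (fj_cc hH J) ξ).continuousAt
  exact (continuous_abs.mul (hc.norm.pow 2)).aestronglyMeasurable

/-- JOB K2b -/
theorem t_K2b : S_K2b := by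
  intro H hH
  obtain ⟨A, hA0, hA⟩ := pt_le hH
  obtain ⟨B, hB0, hB⟩ := pt_ge hH
  refine ⟨2 * A * Real.pi + 2 * B * Real.pi + 1, by
    have : 0 ≤ 2 * A * Real.pi := by positivity
    have : 0 ≤ 2 * B * Real.pi := by positivity
    linarith, fun J => ?_⟩
  obtain ⟨h1, h2⟩ := maj_int A J
  obtain ⟨h1', h2'⟩ := maj_int (-B) J
  have hI : Integrable (fun ξ : ℝ => |ξ| * ‖𝓕 (fc (fj H J 0)) ξ‖ ^ 2) := by
    refine h1.mono' (meas hH J) (Eventually.of_forall fun ξ => ?_)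
    rw [Real.norm_eq_abs, abs_of_nonneg (by positivity)]
    exact hA J ξ
  have e : kj H J J 0 0 = ∫ ξ, |ξ| * ‖𝓕 (fc (fj H J 0)) ξ‖ ^ 2 := by
    unfold kj cv
    refine integral_congr_ae (Eventually.of_forall fun ξ => ?_)
    show |ξ| * (𝓕 (fc (fj H J 0)) ξ * conj (𝓕 (fc (fj H J 0)) ξ)).re = _
    rw [Complex.mul_conj, Complex.ofReal_re, Complex.normSq_eq_norm_sq]
  have h3 : kj H J J 0 0 ≤ ∫ ξ, maj A J ξ := by
    rw [e]
    exact integral_mono hI h1 (hA J)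
  have h4 : ∫ ξ, maj (-B) J ξ ≤ kj H J J 0 0 := by
    rw [e]
    exact integral_mono h1' hI (hB J)
  rw [h2] at h3
  rw [h2'] at h4
  have h5 : 0 ≤ A * Real.pi := by positivity
  have h6 : 0 ≤ B * Real.pi := by positivity
  rw [abs_le]
  constructor <;> linarith

end Pool.Agent.Q128.GC3
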