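import Pool.Agent.Q278.GC.Stm5

/-!
# Job GC-Q2 of helper278's project: the bound of the truncated two-point function
-/

set_option autoImplicit false

open Filter Topology MeasureTheory Complex ProbabilityTheory
open scoped FourierTransform ContDiff ComplexConjugate RealInnerProductSpace
open Pool.Agent.Q278.MC Pool.Agent.Q278.GC

namespace Pool.Agent.Q128.GC5

variable {K : ℕ → ℕ → ℝ → ℝ → ℝ} {κ C : ℝ}

lemma SB_psd (hK : KerB K κ C) (Jm n : ℕ) : (SB K Jm n).PosSemidef := by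
  classical
  let e : Fin (Fintype.card (Fin (Jm + 1) × Fin n)) ≃ Fin (Jm + 1) × Fin n :=
    (Fintype.equivFin (Fin (Jm + 1) × Fin n)).symm
  have h := hK.psd _ (fun i => ((e i).1 : ℕ)) (fun i => ((e i).2 : ℕ) / (n : ℝ))
  rw [← Matrix.posSemidef_submatrix_equiv e]
  exact h

lemma ofNat_val {Jm j : ℕ} (hj : j ≤ Jm) : ((Fin.ofNat (Jm + 1) j : Fin (Jm + 1)) : ℕ) = j := by
  simp [Fin.ofNat, Nat.mod_eq_of_lt (Nat.lt_succ_of_le hj)]

lemma SB_apply {Jm n j j' : ℕ} (hj : j ≤ Jm) (hj' : j' ≤ Jm) (k l : Fin n) :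
    SB K Jm n (Fin.ofNat (Jm + 1) j, k) (Fin.ofNat (Jm + 1) j', l) =
      K j j' ((k : ℕ) / (n : ℝ)) ((l : ℕ) / (n : ℝ)) := by
  unfold SB
  rw [Matrix.of_apply]
  simp only [ofNat_val hj, ofNat_val hj']

/-- the largest scale at which two places are close -/
lemma exists_m {r : ℝ} (hr : r ≤ 1) (M : ℕ) : ∃ m : ℕ, m ≤ M ∧ 2 ^ m * r ≤ 1 ∧
    (m < M → 1 < 2 ^ (m + 1) * r) := by
  classical
  refine ⟨Nat.findGreatest (fun m => 2 ^ m * r ≤ 1) M, Nat.findGreatest_le _, ?_, fun h => ?_⟩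
  · exact Nat.findGreatest_spec (P := fun m : ℕ => 2 ^ m * r ≤ 1) (Nat.zero_le M) (by simpa using hr)
  · have := Nat.findGreatest_is_greatest (P := fun m : ℕ => 2 ^ m * r ≤ 1)
      (Nat.lt_succ_self (Nat.findGreatest (fun m : ℕ => 2 ^ m * r ≤ 1) M)) h
    exact not_le.1 this

lemma C_pos (hK : KerC K κ C) : 1 ≤ C := hK.kb.C1

lemma diag_le (hK : KerC K κ C) (j j' : ℕ) (x : ℝ) :
    K j j' x x ≤ κ * Real.log 2 * (min j j' : ℕ) + C := by
  have := (abs_le.1 (hK.diag j j' x)).2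
  linarith

lemma diag_ge (hK : KerC K κ C) (j j' : ℕ) (x : ℝ) :
    κ * Real.log 2 * (min j j' : ℕ) - C ≤ K j j' x x := by
  have := (abs_le.1 (hK.diag j j' x)).1
  linarith

/-- the covariance at a distance -/
lemma K_le (hK : KerC K κ C) {x y : ℝ} (hr : |x - y| ≤ 1) (J1 J2 m : ℕ)
    (hm : m ≤ min J1 J2) (h1 : 2 ^ m * |x - y| ≤ 1)
    (h2 : m < min J1 J2 → 1 < 2 ^ (m + 1) * |x - y|) :
    K J1 J2 x y ≤ κ * Real.log 2 * m + (2 * C + κ * Real.log 2) := by
  have hC := C_pos hK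
  have hκ : 0 ≤ κ * Real.log 2 := mul_nonneg hK.κpos.le (Real.log_nonneg (by norm_num))
  rcases lt_or_eq_of_le hm with h | h
  · have h3 := h2 h
    have hr0 : 0 < |x - y| := by
      by_contra hh
      have : |x - y| = 0 := le_antisymm (not_lt.1 hh) (abs_nonneg _)
      rw [this, mul_zero] at h3
      linarith
    have hxy : x ≠ y := fun e => by simp [e] at hr0
    have h4 := hK.kb.log J1 J2 x y hxy hr
    have h5 : Real.log (1 / |x - y|) ≤ (m + 1) * Real.log 2 := by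
      have h6 : 1 / |x - y| ≤ 2 ^ (m + 1) := by
        rw [div_le_iff₀ hr0]
        exact h3.le
      have h7 := Real.log_le_log (by positivity) h6
      rw [Real.log_pow] at h7
      push_cast at h7
      exact h7
    have h6 := mul_le_mul_of_nonneg_left h5 hK.κpos.le
    have h7 : κ * ((m + 1) * Real.log 2) = κ * Real.log 2 * m + κ * Real.log 2 := by ring
    linarith
  · have h3 := hK.kb.lip J1 J2 x x y x
    have h4 := diag_le hK J1 J2 x
    rw [← h] at h3 h4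
    have h5 : C * 2 ^ m * (|x - x| + |y - x|) ≤ C := by
      rw [sub_self, abs_zero, zero_add, abs_sub_comm y x, mul_assoc]
      nlinarith
    have h6 := (abs_le.1 (h3.trans h5)).2
    linarith

lemma K_ge (hK : KerC K κ C) {x y : ℝ} (m J2 : ℕ) (hm : m ≤ J2) (h1 : 2 ^ m * |x - y| ≤ 1) :
    κ * Real.log 2 * m - 2 * C ≤ K m J2 x y := by
  have hC := C_pos hK
  have h3 := hK.kb.lip m J2 x x y x
  have h4 := diag_ge hK m J2 x
  rw [min_eq_left hm] at h3 h4
  have h5 : C * 2 ^ m * (|x - x| + |y - x|) ≤ C := by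
    rw [sub_self, abs_zero, zero_add, abs_sub_comm y x, mul_assoc]
    nlinarith
  have h6 := (abs_le.1 (h3.trans h5)).1
  linarith

lemma sub_le_one {n : ℕ} (k l : Fin n) : |((k : ℕ) : ℝ) / n - ((l : ℕ) : ℝ) / n| ≤ 1 := by
  have hn : (0 : ℝ) < n := by
    have : 0 < n := Fin.pos k
    exact_mod_cast this
  rw [← sub_div, abs_div, abs_of_pos hn, div_le_one hn, abs_le]
  have h1 : ((k : ℕ) : ℝ) < n := by exact_mod_cast k.2
  have h2 : ((l : ℕ) : ℝ) < n := by exact_mod_cast l.2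
  have h3 : (0 : ℝ) ≤ (k : ℕ) := Nat.cast_nonneg _
  have h4 : (0 : ℝ) ≤ (l : ℕ) := Nat.cast_nonneg _
  constructor <;> linarith

/-- the tail bound with its loss -/
lemma expo {X c δ : ℝ} (hX : 0 ≤ X) (hc : 0 ≤ c) (hδ : 0 < δ) (hC : 0 < C) :
    -(δ * X - c) ^ 2 / (2 * (X + C)) ≤ -(δ ^ 2 * X / 2) + (2 * c * δ + δ ^ 2 * C) / 2 := by
  rw [div_le_iff₀ (by positivity)]
  nlinarith [mul_nonneg hc hδ.le, mul_nonneg (mul_nonneg hc hδ.le) hC.le, sq_nonneg c,
    mul_nonneg (sq_nonneg δ) (mul_nonneg hC.le hC.le)]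

/-- the probability at the scale `m` -/
lemma prob_le (hTA : S_TA) (hK : KerC K κ C) {γ β : ℝ} (hγ : 0 < γ) (hβ2 : β < 2 * γ)
    (j0 Jm n J1 J2 : ℕ) (k l : Fin n) (h1 : J1 ≤ Jm) (m : ℕ) (hm : m ≤ min J1 J2)
    (hm1 : 2 ^ m * |((k : ℕ) : ℝ) / n - ((l : ℕ) : ℝ) / n| ≤ 1) :
    PP K γ (β * (κ * Real.log 2)) j0 Jm n J1 J2 k l ≤
      Real.exp (-((2 * γ - β) ^ 2 * (κ * Real.log 2 * m) / 2) +
        ((2 * (3 * γ * C) * (2 * γ - β) + (2 * γ - β) ^ 2 * C) / 2 +
          (2 * γ - β) ^ 2 * (κ * Real.log 2 * j0) / 2)) := by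
  have hC := C_pos hK
  have hκ : 0 ≤ κ * Real.log 2 := mul_nonneg hK.κpos.le (Real.log_nonneg (by norm_num))
  have hδ : 0 < 2 * γ - β := by linarith
  have hX : 0 ≤ κ * Real.log 2 * m := mul_nonneg hκ (Nat.cast_nonneg _)
  have hc : 0 ≤ 3 * γ * C := by positivity
  have hpsd := SB_psd hK.kb Jm n
  have hprob : IsProbabilityMeasure
      (multivariateGaussian (0 : EuclideanSpace ℝ (Fin (Jm + 1) × Fin n)) (SB K Jm n)) :=
    inferInstance
  have hPP1 : PP K γ (β * (κ * Real.log 2)) j0 Jm n J1 J2 k l ≤ 1 := by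
    unfold PP
    exact measureReal_le_one
  have hD0 : 0 ≤ (2 * (3 * γ * C) * (2 * γ - β) + (2 * γ - β) ^ 2 * C) / 2 := by positivity
  have hD1 : 0 ≤ (2 * γ - β) ^ 2 * (κ * Real.log 2 * j0) / 2 := by positivity
  rcases lt_or_ge m j0 with hmj | hmj
  · refine hPP1.trans (Real.one_le_exp ?_)
    have h3 : (m : ℝ) ≤ j0 := by exact_mod_cast hmj.le
    have h4 : κ * Real.log 2 * m ≤ κ * Real.log 2 * j0 := mul_le_mul_of_nonneg_left h3 hκ
    have h5 := mul_le_mul_of_nonneg_left h4 (sq_nonneg (2 * γ - β))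
    linarith
  rcases lt_or_ge ((2 * γ - β) * (κ * Real.log 2 * m) - 3 * γ * C) 0 with hT | hT
  · refine hPP1.trans (Real.one_le_exp ?_)
    have h5 : (2 * γ - β) ^ 2 * (κ * Real.log 2 * m) ≤ (2 * γ - β) * (3 * γ * C) := by
      have := mul_le_mul_of_nonneg_left hT.le hδ.le
      nlinarith
    nlinarith [mul_nonneg hδ.le hc, mul_nonneg (sq_nonneg (2 * γ - β)) (by linarith : 0 ≤ C)]
  · set T := (2 * γ - β) * (κ * Real.log 2 * m) - 3 * γ * C with hTd
    have hmJ1 : m ≤ J1 := hm.trans (min_le_left _ _)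
    have hmJ2 : m ≤ J2 := hm.trans (min_le_right _ _)
    have hmJm : m ≤ Jm := hmJ1.trans h1
    have h3 := ((hTA _ (SB K Jm n) hpsd (Fin.ofNat (Jm + 1) m, k)).1
      (κ * Real.log 2 * m + C) T (by
        rw [SB_apply hmJm hmJm]
        have := diag_le hK m m (((k : ℕ) : ℝ) / n)
        rwa [min_self] at this) (by linarith) hT).2
    have h4 : PP K γ (β * (κ * Real.log 2)) j0 Jm n J1 J2 k l ≤
        (multivariateGaussian (0 : EuclideanSpace ℝ (Fin (Jm + 1) × Fin n)) (SB K Jm n)).real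
          {w | w (Fin.ofNat (Jm + 1) m, k) ≤ -T} := by
      unfold PP
      refine measureReal_mono (fun w hw => ?_)
      have h5 := hw.1 m hmj hmJ1
      show w (Fin.ofNat (Jm + 1) m, k) ≤ -T
      refine le_trans h5 ?_
      have h6 := diag_ge hK m J1 (((k : ℕ) : ℝ) / n)
      rw [min_eq_left hmJ1] at h6
      have h7 := K_ge hK m J2 hmJ2 hm1
      have h8 := mul_le_mul_of_nonneg_left (add_le_add h6 h7) hγ.le
      rw [hTd]
      nlinarith
    refine h4.trans (h3.trans (Real.exp_le_exp.2 ?_))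
    have h9 := expo (C := C) hX hc hδ (by linarith)
    rw [← hTd] at h9
    linarith

/-- JOB Q2 -/
theorem t_Q2 (hTA : S_TA) (hQF : S_QF) : S_Q2 := by
  intro K κ C hK γ β hγ hβ hβ2 j0
  have hC := C_pos hK
  have hl2 : 0 < Real.log 2 := Real.log_pos (by norm_num)
  have hκ : 0 ≤ κ * Real.log 2 := mul_nonneg hK.κpos.le hl2.le
  have hs : 0 ≤ sx κ γ β := by
    unfold sx
    refine mul_nonneg hK.κpos.le ?_
    nlinarith
  obtain ⟨D, hD⟩ : ∃ D : ℝ, D = γ ^ 2 * (2 * C + κ * Real.log 2) +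
    ((2 * (3 * γ * C) * (2 * γ - β) + (2 * γ - β) ^ 2 * C) / 2 +
          (2 * γ - β) ^ 2 * (κ * Real.log 2 * j0) / 2) := ⟨_, rfl⟩
  refine ⟨Real.exp D, Real.exp_pos _, fun Jm n J1 J2 k l h1 h2 => ?_⟩
  have hF := hQF K κ C hK.kb γ (β * (κ * Real.log 2)) j0 Jm n J1 J2 k l h1 h2
  have hr1 := sub_le_one k l
  obtain ⟨m, hm, hm1, hm2⟩ := exists_m hr1 (min J1 J2)
  have hPP0 : 0 ≤ PP K γ (β * (κ * Real.log 2)) j0 Jm n J1 J2 k l := by
    unfold PP
    exact measureReal_nonneg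
  have hP := prob_le hTA hK hγ hβ2 j0 Jm n J1 J2 k l h1 m hm hm1
  have hKl := K_le hK hr1 J1 J2 m hm hm1 hm2
  have hmain : QQ K γ (β * (κ * Real.log 2)) j0 Jm n J1 J2 k l ≤
      Real.exp D * Real.exp (sx κ γ β * Real.log 2 * m) := by
    rw [hF, ← Real.exp_add]
    calc Real.exp (γ ^ 2 * K J1 J2 (((k : ℕ) : ℝ) / n) (((l : ℕ) : ℝ) / n)) *
          PP K γ (β * (κ * Real.log 2)) j0 Jm n J1 J2 k l
        ≤ Real.exp (γ ^ 2 * (κ * Real.log 2 * m + (2 * C + κ * Real.log 2))) *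
          Real.exp (-((2 * γ - β) ^ 2 * (κ * Real.log 2 * m) / 2) +
        ((2 * (3 * γ * C) * (2 * γ - β) + (2 * γ - β) ^ 2 * C) / 2 +
          (2 * γ - β) ^ 2 * (κ * Real.log 2 * j0) / 2)) := by
          refine mul_le_mul (Real.exp_le_exp.2 (mul_le_mul_of_nonneg_left hKl (sq_nonneg γ))) hP
            hPP0 (Real.exp_pos _).le
      _ = Real.exp (D + sx κ γ β * Real.log 2 * m) := by
          rw [← Real.exp_add, hD]
          congr 1
          unfold sx
          ring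
  refine ⟨?_, ?_, fun hkl => ?_⟩
  · rw [hF]
    exact mul_nonneg (Real.exp_pos _).le hPP0
  · refine hmain.trans (mul_le_mul_of_nonneg_left (Real.exp_le_exp.2 ?_) (Real.exp_pos _).le)
    have : (m : ℝ) ≤ (min J1 J2 : ℕ) := by exact_mod_cast hm
    exact mul_le_mul_of_nonneg_left this (mul_nonneg hs hl2.le)
  · refine hmain.trans (mul_le_mul_of_nonneg_left ?_ (Real.exp_pos _).le)
    have hn : (0 : ℝ) < n := by
      have : 0 < n := Fin.pos k
      exact_mod_cast this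
    have hr0 : 0 < |((k : ℕ) : ℝ) / n - ((l : ℕ) : ℝ) / n| := by
      rw [abs_pos, sub_ne_zero]
      intro e
      rw [div_left_inj' hn.ne'] at e
      exact hkl (Fin.ext (by exact_mod_cast e))
    rw [Real.rpow_def_of_pos hr0]
    refine Real.exp_le_exp.2 ?_
    have h3 : Real.log 2 * m ≤ -Real.log |((k : ℕ) : ℝ) / n - ((l : ℕ) : ℝ) / n| := by
      have h4 : (2 : ℝ) ^ m ≤ |((k : ℕ) : ℝ) / n - ((l : ℕ) : ℝ) / n|⁻¹ := by
        rw [← one_div, le_div_iff₀ hr0]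
        exact hm1
      have h5 := Real.log_le_log (by positivity) h4
      rw [Real.log_pow, Real.log_inv] at h5
      linarith
    nlinarith

end Pool.Agent.Q128.GC5
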