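import Pool.Agent.Q128.GC.Q2

/-!
# Job GC-Q3 of helper278's project: the truncated two-point function at distant points
-/

set_option autoImplicit false

open Filter Topology MeasureTheory Complex ProbabilityTheory
open scoped FourierTransform ContDiff ComplexConjugate RealInnerProductSpace
open Pool.Agent.Q278.MC Pool.Agent.Q278.GC Pool.Agent.Q128.GC5

namespace Pool.Agent.Q128.GC6

variable {K : ℕ → ℕ → ℝ → ℝ → ℝ} {κ C : ℝ}

lemma exp_diff {a b B : ℝ} (ha : a ≤ B) (hb : b ≤ B) :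
    |Real.exp a - Real.exp b| ≤ Real.exp B * |a - b| := by
  have key : ∀ a b : ℝ, b ≤ B → a ≤ b → Real.exp b - Real.exp a ≤ Real.exp B * (b - a) := by
    intro a b hb hab
    have h1 := Real.add_one_le_exp (a - b)
    have h2 : Real.exp a = Real.exp b * Real.exp (a - b) := by
      rw [← Real.exp_add]; congr 1; ring
    have h3 : Real.exp b - Real.exp a ≤ Real.exp b * (b - a) := by
      rw [h2]
      nlinarith [Real.exp_pos b]
    exact h3.trans (mul_le_mul_of_nonneg_right (Real.exp_le_exp.2 hb) (by linarith))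
  rcases le_total a b with h | h
  · rw [abs_sub_comm, abs_of_nonneg (sub_nonneg.2 (Real.exp_le_exp.2 h)), abs_sub_comm,
      abs_of_nonneg (sub_nonneg.2 h)]
    exact key a b hb h
  · rw [abs_of_nonneg (sub_nonneg.2 (Real.exp_le_exp.2 h)), abs_of_nonneg (sub_nonneg.2 h)]
    exact key b a ha h

lemma K_far (hK : KerC K κ C) {x y η : ℝ} (hη : 0 < η) (h1 : η ≤ |x - y|) (h2 : |x - y| ≤ 1)
    (J J' : ℕ) : K J J' x y ≤ κ * Real.log (1 / η) + C := by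
  have hr0 : 0 < |x - y| := lt_of_lt_of_le hη h1
  have hxy : x ≠ y := fun e => by simp [e] at hr0
  refine (hK.kb.log J J' x y hxy h2).trans ?_
  have h3 : Real.log (1 / |x - y|) ≤ Real.log (1 / η) :=
    Real.log_le_log (by positivity) (one_div_le_one_div_of_le hη h1)
  have := mul_le_mul_of_nonneg_left h3 hK.κpos.le
  linarith

/-- the threshold at the first place -/
noncomputable def th (K : ℕ → ℕ → ℝ → ℝ → ℝ) (γ a : ℝ) (J1 J2 : ℕ) (x y : ℝ) (j : ℕ) : ℝ :=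
  a * j - γ * (K j J1 x x + K j J2 x y)

/-- the threshold at the second place -/
noncomputable def th' (K : ℕ → ℕ → ℝ → ℝ → ℝ) (γ a : ℝ) (J1 J2 : ℕ) (x y : ℝ) (j : ℕ) : ℝ :=
  a * j - γ * (K j J1 y x + K j J2 y y)

lemma th_diff (hK : KerC K κ C) {γ a : ℝ} (hγ : 0 < γ) {N J1 J2 J3 J4 j N1 : ℕ} (x y : ℝ)
    (h1 : N ≤ J1) (h2 : N ≤ J2) (h3 : N ≤ J3) (h4 : N ≤ J4) (hj : j ≤ N1) (hN : N1 ≤ N) :
    |th K γ a J1 J2 x y j - th K γ a J3 J4 x y j| ≤ 2 * γ * C * (1 / 2) ^ (N - N1) ∧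
    |th' K γ a J1 J2 x y j - th' K γ a J3 J4 x y j| ≤ 2 * γ * C * (1 / 2) ^ (N - N1) := by
  have hC := C_pos hK
  have key : ∀ (J J' : ℕ) (u v : ℝ), N ≤ J → N ≤ J' → |K j J u v - K j J' u v| ≤
      C * (1 / 2) ^ (N - N1) := by
    intro J J' u v hJ hJ'
    refine (hK.cau1 j J J' u v (by omega) (by omega)).trans ?_
    refine mul_le_mul_of_nonneg_left ?_ (by linarith)
    refine pow_le_pow_of_le_one (by norm_num) (by norm_num) ?_
    have : N ≤ min J J' := le_min hJ hJ'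
    omega
  constructor
  · have e : th K γ a J1 J2 x y j - th K γ a J3 J4 x y j =
        -(γ * ((K j J1 x x - K j J3 x x) + (K j J2 x y - K j J4 x y))) := by
      unfold th
      ring
    rw [e, abs_neg, abs_mul, abs_of_pos hγ]
    have h5 := key J1 J3 x x h1 h3
    have h6 := key J2 J4 x y h2 h4
    have h7 := abs_add_le (K j J1 x x - K j J3 x x) (K j J2 x y - K j J4 x y)
    nlinarith
  · have e : th' K γ a J1 J2 x y j - th' K γ a J3 J4 x y j =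
        -(γ * ((K j J1 y x - K j J3 y x) + (K j J2 y y - K j J4 y y))) := by
      unfold th'
      ring
    rw [e, abs_neg, abs_mul, abs_of_pos hγ]
    have h5 := key J1 J3 y x h1 h3
    have h6 := key J2 J4 y y h2 h4
    have h7 := abs_add_le (K j J1 y x - K j J3 y x) (K j J2 y y - K j J4 y y)
    nlinarith

/-- the thresholds are large -/
lemma th_ge (hK : KerC K κ C) {γ β η : ℝ} (hγ : 0 < γ) (hη : 0 < η) {x y : ℝ}
    (h1 : η ≤ |x - y|) (h2 : |x - y| ≤ 1) (J1 J2 j : ℕ)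
    (hj : 2 * γ * (C + (κ * Real.log (1 / η) + C)) ≤ (β - γ) * (κ * Real.log 2 * j)) :
    (β - γ) * (κ * Real.log 2 * j) / 2 ≤ th K γ (β * (κ * Real.log 2)) J1 J2 x y j ∧
    (β - γ) * (κ * Real.log 2 * j) / 2 ≤ th' K γ (β * (κ * Real.log 2)) J1 J2 x y j := by
  have hκ : 0 ≤ κ * Real.log 2 := mul_nonneg hK.κpos.le (Real.log_nonneg (by norm_num))
  have hd : ∀ (J : ℕ) (u : ℝ), K j J u u ≤ κ * Real.log 2 * j + C := by
    intro J u
    refine (diag_le hK j J u).trans ?_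
    have h3 : ((min j J : ℕ) : ℝ) ≤ j := by exact_mod_cast min_le_left _ _
    have := mul_le_mul_of_nonneg_left h3 hκ
    linarith
  have h1' : η ≤ |y - x| := by rwa [abs_sub_comm]
  have h2' : |y - x| ≤ 1 := by rwa [abs_sub_comm]
  constructor
  · unfold th
    have h3 := hd J1 x
    have h4 := K_far hK hη h1 h2 j J2
    have h5 := mul_le_mul_of_nonneg_left (add_le_add h3 h4) hγ.le
    nlinarith
  · unfold th'
    have h3 := hd J2 y
    have h4 := K_far hK hη h1' h2' j J1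
    have h5 := mul_le_mul_of_nonneg_left (add_le_add h4 h3) hγ.le
    nlinarith

lemma tail_exp {γ β X C T : ℝ} (hβ : γ < β) (hX : 0 < X) (hC : C ≤ X) (hC0 : 0 < C)
    (hT : (β - γ) * X / 2 ≤ T) :
    Real.exp (-T ^ 2 / (2 * (X + C))) ≤ Real.exp (-((β - γ) ^ 2 * X / 16)) := by
  refine Real.exp_le_exp.2 ?_
  rw [div_le_iff₀ (by positivity)]
  have h0 : 0 < β - γ := by linarith
  have h1 : 0 ≤ (β - γ) * X / 2 := by positivity
  have h2 : ((β - γ) * X / 2) ^ 2 ≤ T ^ 2 := pow_le_pow_left₀ h1 hT 2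
  have h3 : (β - γ) ^ 2 * X * (X + C) ≤ (β - γ) ^ 2 * X * (X + X) :=
    mul_le_mul_of_nonneg_left (by linarith) (by positivity)
  nlinarith

open Classical in
/-- one-sided comparison of the probabilities -/
lemma PP_le (hTA : S_TA) (hK : KerC K κ C) {γ β η : ℝ} (hγ : 0 < γ) (hβ : γ < β) (hη : 0 < η)
    {j0 : ℕ} (hj0 : C + 1 ≤ κ * Real.log 2 * j0) {N N1 : ℕ} (hj1 : j0 ≤ N1) (hN : N1 ≤ N)
    (hN1 : 2 * γ * (C + (κ * Real.log (1 / η) + C)) ≤ (β - γ) * (κ * Real.log 2 * N1))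
    (Jm n J1 J2 J3 J4 : ℕ) (k l : Fin n) (h1 : N ≤ J1) (h2 : N ≤ J2) (h3 : N ≤ J3) (h4 : N ≤ J4)
    (h3m : J3 ≤ Jm) (h4m : J4 ≤ Jm)
    (hkl : η ≤ |((k : ℕ) : ℝ) / n - ((l : ℕ) : ℝ) / n|) :
    PP K γ (β * (κ * Real.log 2)) j0 Jm n J1 J2 k l ≤
      PP K γ (β * (κ * Real.log 2)) j0 Jm n J3 J4 k l +
      ((N1 + 1) * (4 * γ * C * (1 / 2) ^ (N - N1)) +
        2 * (Real.exp (-((β - γ) ^ 2 * (κ * Real.log 2) / 16)) ^ N1 /
          (1 - Real.exp (-((β - γ) ^ 2 * (κ * Real.log 2) / 16))))) := by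
  have hC := C_pos hK
  have hl2 : 0 < Real.log 2 := Real.log_pos (by norm_num)
  have hκ : 0 < κ * Real.log 2 := mul_pos hK.κpos hl2
  have hr1 := sub_le_one k l
  obtain ⟨x, hx⟩ : ∃ x : ℝ, x = ((k : ℕ) : ℝ) / n := ⟨_, rfl⟩
  obtain ⟨y, hy⟩ : ∃ y : ℝ, y = ((l : ℕ) : ℝ) / n := ⟨_, rfl⟩
  rw [← hx, ← hy] at hkl hr1
  set μ := multivariateGaussian (0 : EuclideanSpace ℝ (Fin (Jm + 1) × Fin n)) (SB K Jm n) with hμ
  have hprob : IsProbabilityMeasure μ := by rw [hμ]; infer_instance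
  have hpsd := SB_psd hK.kb Jm n
  obtain ⟨a, ha⟩ : ∃ a : ℝ, a = β * (κ * Real.log 2) := ⟨_, rfl⟩
  obtain ⟨δ, hδ⟩ : ∃ δ : ℝ, δ = 2 * γ * C * (1 / 2) ^ (N - N1) := ⟨_, rfl⟩
  have hδ0 : 0 ≤ δ := by rw [hδ]; positivity
  obtain ⟨q, hq⟩ : ∃ q : ℝ, q = Real.exp (-((β - γ) ^ 2 * (κ * Real.log 2) / 16)) := ⟨_, rfl⟩
  have hq0 : 0 < q := by rw [hq]; exact Real.exp_pos _
  have hq1 : q < 1 := by
    rw [hq, Real.exp_lt_one_iff]
    have : 0 < β - γ := by linarith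
    have : 0 < (β - γ) ^ 2 * (κ * Real.log 2) / 16 := by positivity
    linarith
  -- the sets
  let A : ℕ → ℕ → Set (EuclideanSpace ℝ (Fin (Jm + 1) × Fin n)) := fun J J' =>
    {w | (∀ j : ℕ, j0 ≤ j → j ≤ J → co w j k ≤ th K γ a J J' x y j) ∧
      (∀ j : ℕ, j0 ≤ j → j ≤ J' → co w j l ≤ th' K γ a J J' x y j)}
  have hA : ∀ J J', PP K γ (β * (κ * Real.log 2)) j0 Jm n J J' k l = μ.real (A J J') := by
    intro J J'
    subst hx hy
    rw [← ha]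
    rfl
  let S1 : ℕ → Set (EuclideanSpace ℝ (Fin (Jm + 1) × Fin n)) := fun j =>
    {w | th K γ a J3 J4 x y j ≤ w (Fin.ofNat (Jm + 1) j, k) ∧
      w (Fin.ofNat (Jm + 1) j, k) ≤ th K γ a J3 J4 x y j + δ}
  let S2 : ℕ → Set (EuclideanSpace ℝ (Fin (Jm + 1) × Fin n)) := fun j =>
    {w | th' K γ a J3 J4 x y j ≤ w (Fin.ofNat (Jm + 1) j, l) ∧
      w (Fin.ofNat (Jm + 1) j, l) ≤ th' K γ a J3 J4 x y j + δ}
  let T1 : ℕ → Set (EuclideanSpace ℝ (Fin (Jm + 1) × Fin n)) := fun j =>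
    {w | th K γ a J3 J4 x y j ≤ w (Fin.ofNat (Jm + 1) j, k)}
  let T2 : ℕ → Set (EuclideanSpace ℝ (Fin (Jm + 1) × Fin n)) := fun j =>
    {w | th' K γ a J3 J4 x y j ≤ w (Fin.ofNat (Jm + 1) j, l)}
  have hsub : A J1 J2 ⊆ A J3 J4 ∪ ((⋃ j ∈ Finset.Icc j0 N1, (S1 j ∪ S2 j)) ∪
      ((⋃ j ∈ Finset.Ico (N1 + 1) (J3 + 1), T1 j) ∪ (⋃ j ∈ Finset.Ico (N1 + 1) (J4 + 1), T2 j))) := by
    intro w hw
    by_cases hw3 : w ∈ A J3 J4
    · exact Or.inl hw3
    refine Or.inr ?_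
    have h5 : (∃ j : ℕ, j0 ≤ j ∧ j ≤ J3 ∧ th K γ a J3 J4 x y j < co w j k) ∨
        (∃ j : ℕ, j0 ≤ j ∧ j ≤ J4 ∧ th' K γ a J3 J4 x y j < co w j l) := by
      by_contra hh
      push Not at hh
      exact hw3 ⟨fun j ha hb => hh.1 j ha hb, fun j ha hb => hh.2 j ha hb⟩
    rcases h5 with ⟨j, hja, hjb, hjc⟩ | ⟨j, hja, hjb, hjc⟩
    · rcases le_or_gt j N1 with hj | hj
      · left
        simp only [Set.mem_iUnion]
        refine ⟨j, Finset.mem_Icc.2 ⟨hja, hj⟩, Or.inl ⟨hjc.le, ?_⟩⟩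
        have h6 := hw.1 j hja (by omega)
        have h7 := (th_diff (a := a) hK hγ x y h1 h2 h3 h4 hj hN).1
        rw [← hδ] at h7
        have h8 := (abs_le.1 h7).2
        show co w j k ≤ _
        linarith
      · right
        left
        simp only [Set.mem_iUnion]
        exact ⟨j, Finset.mem_Ico.2 ⟨hj, by omega⟩, hjc.le⟩
    · rcases le_or_gt j N1 with hj | hj
      · left
        simp only [Set.mem_iUnion]
        refine ⟨j, Finset.mem_Icc.2 ⟨hja, hj⟩, Or.inr ⟨hjc.le, ?_⟩⟩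
        have h6 := hw.2 j hja (by omega)
        have h7 := (th_diff (a := a) hK hγ x y h1 h2 h3 h4 hj hN).2
        rw [← hδ] at h7
        have h8 := (abs_le.1 h7).2
        show co w j l ≤ _
        linarith
      · right
        right
        simp only [Set.mem_iUnion]
        exact ⟨j, Finset.mem_Ico.2 ⟨hj, by omega⟩, hjc.le⟩
  -- the probabilities
  have hS : ∀ (j : ℕ) (i : Fin n) (t : ℝ), j0 ≤ j → j ≤ Jm →
      μ.real {w : EuclideanSpace ℝ (Fin (Jm + 1) × Fin n) | t ≤ w (Fin.ofNat (Jm + 1) j, i) ∧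
        w (Fin.ofNat (Jm + 1) j, i) ≤ t + δ} ≤ δ := by
    intro j i t hj hjm
    have h5 : 1 ≤ SB K Jm n (Fin.ofNat (Jm + 1) j, i) (Fin.ofNat (Jm + 1) j, i) := by
      rw [SB_apply hjm hjm]
      have h6 := diag_ge hK j j (((i : ℕ) : ℝ) / n)
      rw [min_self] at h6
      have h7 : (j0 : ℝ) ≤ j := by exact_mod_cast hj
      have h8 := mul_le_mul_of_nonneg_left h7 hκ.le
      linarith
    have h6 := (hTA _ (SB K Jm n) hpsd (Fin.ofNat (Jm + 1) j, i)).2 t δ (by linarith) hδ0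
    refine h6.trans (div_le_self hδ0 ?_)
    rw [Real.one_le_sqrt]
    exact h5
  have hT : ∀ (j : ℕ) (i : Fin n) (t : ℝ), N1 < j → j ≤ Jm →
      (β - γ) * (κ * Real.log 2 * j) / 2 ≤ t →
      μ.real {w : EuclideanSpace ℝ (Fin (Jm + 1) × Fin n) | t ≤ w (Fin.ofNat (Jm + 1) j, i)} ≤
        q ^ j := by
    intro j i t hj hjm ht
    have h7 : (j0 : ℝ) ≤ j := by exact_mod_cast (by omega : j0 ≤ j)
    have h8 := mul_le_mul_of_nonneg_left h7 hκ.le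
    have hX : 0 < κ * Real.log 2 * j := by linarith
    have ht0 : 0 ≤ t := by
      have : 0 < β - γ := by linarith
      have : 0 ≤ (β - γ) * (κ * Real.log 2 * j) / 2 := by positivity
      linarith
    have h6 := ((hTA _ (SB K Jm n) hpsd (Fin.ofNat (Jm + 1) j, i)).1
      (κ * Real.log 2 * j + C) t (by
        rw [SB_apply hjm hjm]
        have := diag_le hK j j (((i : ℕ) : ℝ) / n)
        rwa [min_self] at this) (by linarith) ht0).1
    refine h6.trans ((tail_exp hβ hX (by linarith) (by linarith) ht).trans (le_of_eq ?_))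
    rw [hq, ← Real.exp_nat_mul]
    congr 1
    ring
  have hN1j : ∀ j : ℕ, N1 < j → 2 * γ * (C + (κ * Real.log (1 / η) + C)) ≤
      (β - γ) * (κ * Real.log 2 * j) := by
    intro j hj
    refine hN1.trans ?_
    have h7 : (N1 : ℝ) ≤ j := by exact_mod_cast hj.le
    have h8 := mul_le_mul_of_nonneg_left h7 hκ.le
    exact mul_le_mul_of_nonneg_left h8 (by linarith)
  have hgeo : ∀ J : ℕ, ∑ j ∈ Finset.Ico (N1 + 1) (J + 1), q ^ j ≤ q ^ N1 / (1 - q) := by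
    intro J
    refine (geom_sum_Ico_le_of_lt_one hq0.le hq1).trans ?_
    refine div_le_div_of_nonneg_right ?_ (by linarith)
    exact pow_le_pow_of_le_one hq0.le hq1.le (Nat.le_succ _)
  have hU1 : μ.real (⋃ j ∈ Finset.Icc j0 N1, (S1 j ∪ S2 j)) ≤ (N1 + 1) * (2 * δ) := by
    refine (measureReal_biUnion_finset_le _ _).trans ?_
    have h5 : ∀ j ∈ Finset.Icc j0 N1, μ.real (S1 j ∪ S2 j) ≤ 2 * δ := by
      intro j hj
      have hj' := Finset.mem_Icc.1 hj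
      refine (measureReal_union_le _ _).trans ?_
      have h6 := hS j k (th K γ a J3 J4 x y j) hj'.1 (by omega)
      have h7 := hS j l (th' K γ a J3 J4 x y j) hj'.1 (by omega)
      have h6' : μ.real (S1 j) ≤ δ := h6
      have h7' : μ.real (S2 j) ≤ δ := h7
      linarith
    refine (Finset.sum_le_card_nsmul _ _ _ h5).trans ?_
    rw [Nat.card_Icc, nsmul_eq_mul]
    refine mul_le_mul_of_nonneg_right ?_ (by linarith)
    have : N1 + 1 - j0 ≤ N1 + 1 := Nat.sub_le _ _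
    exact_mod_cast this
  have hU2 : μ.real (⋃ j ∈ Finset.Ico (N1 + 1) (J3 + 1), T1 j) ≤ q ^ N1 / (1 - q) := by
    refine (measureReal_biUnion_finset_le _ _).trans ((Finset.sum_le_sum fun j hj => ?_).trans
      (hgeo J3))
    have hj' := Finset.mem_Ico.1 hj
    exact hT j k _ (by omega) (by omega)
      (ha ▸ (th_ge hK hγ hη hkl hr1 J3 J4 j (hN1j j (by omega))).1)
  have hU3 : μ.real (⋃ j ∈ Finset.Ico (N1 + 1) (J4 + 1), T2 j) ≤ q ^ N1 / (1 - q) := by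
    refine (measureReal_biUnion_finset_le _ _).trans ((Finset.sum_le_sum fun j hj => ?_).trans
      (hgeo J4))
    have hj' := Finset.mem_Ico.1 hj
    exact hT j l _ (by omega) (by omega)
      (ha ▸ (th_ge hK hγ hη hkl hr1 J3 J4 j (hN1j j (by omega))).2)
  rw [hA, hA, ← hq]
  have h5 := measureReal_mono (μ := μ) hsub
  have h6 := measureReal_union_le (μ := μ) (A J3 J4) ((⋃ j ∈ Finset.Icc j0 N1, (S1 j ∪ S2 j)) ∪
      ((⋃ j ∈ Finset.Ico (N1 + 1) (J3 + 1), T1 j) ∪ (⋃ j ∈ Finset.Ico (N1 + 1) (J4 + 1), T2 j)))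
  have h7 := measureReal_union_le (μ := μ) (⋃ j ∈ Finset.Icc j0 N1, (S1 j ∪ S2 j))
      ((⋃ j ∈ Finset.Ico (N1 + 1) (J3 + 1), T1 j) ∪ (⋃ j ∈ Finset.Ico (N1 + 1) (J4 + 1), T2 j))
  have h8 := measureReal_union_le (μ := μ) (⋃ j ∈ Finset.Ico (N1 + 1) (J3 + 1), T1 j)
    (⋃ j ∈ Finset.Ico (N1 + 1) (J4 + 1), T2 j)
  have h9 : (N1 + 1 : ℝ) * (4 * γ * C * (1 / 2) ^ (N - N1)) = (N1 + 1) * (2 * δ) := by
    rw [hδ]; ring
  rw [h9]
  linarith

/-- JOB Q3 -/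
theorem t_Q3 (hTA : S_TA) (hQF : S_QF) : S_Q3 := by
  intro K κ C hK γ β hγ hβ j0 hj0 ε η hε hη
  have hC := C_pos hK
  have hl2 : 0 < Real.log 2 := Real.log_pos (by norm_num)
  have hκ : 0 < κ * Real.log 2 := mul_pos hK.κpos hl2
  obtain ⟨B, hB⟩ : ∃ B : ℝ, B = κ * Real.log (1 / η) + C := ⟨_, rfl⟩
  obtain ⟨E, hE⟩ : ∃ E : ℝ, E = Real.exp (γ ^ 2 * B) := ⟨_, rfl⟩
  have hE0 : 0 < E := by rw [hE]; exact Real.exp_pos _
  obtain ⟨q, hq⟩ : ∃ q : ℝ, q = Real.exp (-((β - γ) ^ 2 * (κ * Real.log 2) / 16)) := ⟨_, rfl⟩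
  have hq0 : 0 < q := by rw [hq]; exact Real.exp_pos _
  have hq1 : q < 1 := by
    rw [hq, Real.exp_lt_one_iff]
    have : 0 < β - γ := by linarith
    have : 0 < (β - γ) ^ 2 * (κ * Real.log 2) / 16 := by positivity
    linarith
  obtain ⟨ε2, hε2⟩ : ∃ ε2 : ℝ, ε2 = ε / (2 * E) := ⟨_, rfl⟩
  have hε20 : 0 < ε2 := by rw [hε2]; positivity
  -- the choice of `N1`
  obtain ⟨N1, hN1a, hN1b, hN1c⟩ : ∃ N1 : ℕ, j0 ≤ N1 ∧
      2 * γ * (C + (κ * Real.log (1 / η) + C)) ≤ (β - γ) * (κ * Real.log 2 * N1) ∧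
      2 * (q ^ N1 / (1 - q)) ≤ ε2 / 2 := by
    have t1 : Tendsto (fun m : ℕ => (β - γ) * (κ * Real.log 2 * m)) atTop atTop := by
      refine Tendsto.const_mul_atTop (by linarith) (Tendsto.const_mul_atTop hκ ?_)
      exact tendsto_natCast_atTop_atTop
    have t2 : Tendsto (fun m : ℕ => 2 * (q ^ m / (1 - q))) atTop (𝓝 (2 * (0 / (1 - q)))) :=
      ((tendsto_pow_atTop_nhds_zero_of_lt_one hq0.le hq1).div_const _).const_mul _
    rw [zero_div, mul_zero] at t2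
    have e1 := t1.eventually_ge_atTop (2 * γ * (C + (κ * Real.log (1 / η) + C)))
    have e2 := t2.eventually_le_const (show (0 : ℝ) < ε2 / 2 by positivity)
    obtain ⟨m, hm⟩ := ((eventually_ge_atTop j0).and (e1.and e2)).exists
    exact ⟨m, hm.1, hm.2.1, hm.2.2⟩
  -- the choice of `N`
  obtain ⟨N2, hN2⟩ : ∃ N2 : ℕ, (N1 + 1) * (4 * γ * C * (1 / 2) ^ N2) ≤ ε2 / 2 := by
    have t : Tendsto (fun m : ℕ => (N1 + 1 : ℝ) * (4 * γ * C * (1 / 2) ^ m)) atTop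
        (𝓝 ((N1 + 1 : ℝ) * (4 * γ * C * 0))) :=
      ((tendsto_pow_atTop_nhds_zero_of_lt_one (by norm_num) (by norm_num)).const_mul _).const_mul _
    rw [mul_zero, mul_zero] at t
    exact (t.eventually_le_const (show (0 : ℝ) < ε2 / 2 by positivity)).exists
  obtain ⟨N3, hN3⟩ := hK.cau2 η (ε / (2 * E * (γ ^ 2))) hη (by positivity)
  refine ⟨N1 + N2 + N3, fun Jm n J1 J2 J3 J4 k l h1 h2 h3 h4 m1 m2 m3 m4 hkl => ?_⟩
  have hr1 := sub_le_one k l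
  rw [hQF K κ C hK.kb γ (β * (κ * Real.log 2)) j0 Jm n J1 J2 k l m1 m2,
    hQF K κ C hK.kb γ (β * (κ * Real.log 2)) j0 Jm n J3 J4 k l m3 m4]
  have hmono : (N1 + 1 : ℝ) * (4 * γ * C * (1 / 2) ^ (N1 + N2 + N3 - N1)) ≤ ε2 / 2 := by
    refine le_trans ?_ hN2
    refine mul_le_mul_of_nonneg_left (mul_le_mul_of_nonneg_left ?_ (by positivity)) (by positivity)
    exact pow_le_pow_of_le_one (by norm_num) (by norm_num) (by omega)
  have hP1 := PP_le hTA hK hγ hβ hη hj0 hN1a (by omega : N1 ≤ N1 + N2 + N3) hN1b Jm n J1 J2 J3 J4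
    k l h1 h2 h3 h4 m3 m4 hkl
  have hP2 := PP_le hTA hK hγ hβ hη hj0 hN1a (by omega : N1 ≤ N1 + N2 + N3) hN1b Jm n J3 J4 J1 J2
    k l h3 h4 h1 h2 m1 m2 hkl
  rw [← hq] at hP1 hP2
  obtain ⟨P1, hP1d⟩ : ∃ P : ℝ, P = PP K γ (β * (κ * Real.log 2)) j0 Jm n J1 J2 k l := ⟨_, rfl⟩
  obtain ⟨P2, hP2d⟩ : ∃ P : ℝ, P = PP K γ (β * (κ * Real.log 2)) j0 Jm n J3 J4 k l := ⟨_, rfl⟩
  have hP10 : 0 ≤ P1 := by rw [hP1d]; unfold PP; exact measureReal_nonneg
  have hP11 : P1 ≤ 1 := by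
    rw [hP1d]
    unfold PP
    have hprob : IsProbabilityMeasure
        (multivariateGaussian (0 : EuclideanSpace ℝ (Fin (Jm + 1) × Fin n)) (SB K Jm n)) :=
      inferInstance
    exact measureReal_le_one
  rw [← hP1d, ← hP2d] at hP1 hP2 ⊢
  have hPd : |P1 - P2| ≤ ε2 := by
    rw [abs_le]
    constructor <;> linarith
  have hK12 := K_far hK hη hkl hr1 J1 J2
  have hK34 := K_far hK hη hkl hr1 J3 J4
  have hKd := hN3 J1 J2 J3 J4 (by omega) (by omega) (by omega) (by omega) _ _ hkl hr1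
  obtain ⟨a, ha⟩ : ∃ a : ℝ, a = K J1 J2 (((k : ℕ) : ℝ) / n) (((l : ℕ) : ℝ) / n) := ⟨_, rfl⟩
  obtain ⟨b, hb⟩ : ∃ b : ℝ, b = K J3 J4 (((k : ℕ) : ℝ) / n) (((l : ℕ) : ℝ) / n) := ⟨_, rfl⟩
  rw [← ha, ← hB] at hK12
  rw [← hb, ← hB] at hK34
  rw [← ha, ← hb] at hKd ⊢
  have hg2 : 0 < γ ^ 2 := by positivity
  have h5 := exp_diff (mul_le_mul_of_nonneg_left hK12 hg2.le) (mul_le_mul_of_nonneg_left hK34 hg2.le)
  rw [← hE, ← mul_sub, abs_mul, abs_of_pos hg2] at h5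
  have h6 : |Real.exp (γ ^ 2 * a) - Real.exp (γ ^ 2 * b)| ≤ ε / 2 := by
    refine h5.trans ?_
    calc E * (γ ^ 2 * |a - b|) ≤ E * (γ ^ 2 * (ε / (2 * E * γ ^ 2))) := by
          refine mul_le_mul_of_nonneg_left (mul_le_mul_of_nonneg_left hKd hg2.le) hE0.le
      _ = ε / 2 := by
          field_simp
  have h7 : Real.exp (γ ^ 2 * b) ≤ E := by
    rw [hE]
    exact Real.exp_le_exp.2 (mul_le_mul_of_nonneg_left hK34 hg2.le)
  have h8 : Real.exp (γ ^ 2 * a) * P1 - Real.exp (γ ^ 2 * b) * P2 =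
      (Real.exp (γ ^ 2 * a) - Real.exp (γ ^ 2 * b)) * P1 + Real.exp (γ ^ 2 * b) * (P1 - P2) := by
    ring
  rw [h8]
  refine (abs_add_le _ _).trans ?_
  rw [abs_mul, abs_mul, abs_of_nonneg hP10, abs_of_pos (Real.exp_pos _)]
  have h9 : |Real.exp (γ ^ 2 * a) - Real.exp (γ ^ 2 * b)| * P1 ≤ ε / 2 * 1 :=
    mul_le_mul h6 hP11 hP10 (by positivity)
  have h10 : Real.exp (γ ^ 2 * b) * |P1 - P2| ≤ E * ε2 :=
    mul_le_mul h7 hPd (abs_nonneg _) hE0.le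
  have h11 : E * ε2 = ε / 2 := by
    rw [hε2]
    field_simp
  linarith

end Pool.Agent.Q128.GC6
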